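import Mathlib

/-!
Subgroups of finite index in the multiplicative group of a field: differences.
-/

set_option autoImplicit false

open Finset ComplexConjugate

namespace Pool.Agent.H83HF

/-- Distinct powers with nonzero subset sums. -/
theorem exists_lam {K : Type} [Field K] [Infinite K] (ι : Type) [Fintype ι] :
    ∃ lam : ι → K, ∀ I : Finset ι, I.Nonempty → ∑ i ∈ I, lam i ≠ 0 := by
  classical
  let e : ι ≃ Fin (Fintype.card ι) := Fintype.equivFin ι
  let P : Finset ι → Polynomial K := fun I => ∑ i ∈ I, Polynomial.X ^ (e i : ℕ)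
  have hP : ∀ I : Finset ι, I.Nonempty → P I ≠ 0 := by
    rintro I ⟨i, hi⟩ h
    have h1 := congrArg (fun p => Polynomial.coeff p (e i : ℕ)) h
    simp only [P, Polynomial.finsetSum_coeff, Polynomial.coeff_X_pow, Polynomial.coeff_zero] at h1
    rw [Finset.sum_eq_single i] at h1
    · simp at h1
    · intro j _ hj
      rw [if_neg]
      intro h2
      exact hj (e.injective (Fin.ext h2.symm))
    · intro h2
      exact absurd hi h2
  let S : Finset K := (univ : Finset (Finset ι)).biUnion fun I => (P I).roots.toFinset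
  obtain ⟨t, ht⟩ := Infinite.exists_notMem_finset S
  refine ⟨fun i => t ^ (e i : ℕ), fun I hI h => ht ?_⟩
  simp only [S, mem_biUnion, mem_univ, true_and, Multiset.mem_toFinset]
  refine ⟨I, ?_⟩
  rw [Polynomial.mem_roots (hP I hI), Polynomial.IsRoot.def]
  simp only [P, Polynomial.eval_finsetSum, Polynomial.eval_pow, Polynomial.eval_X]
  exact h

theorem infinite_case {K : Type} [Field K] [Infinite K] {r : ℕ} (G : Subgroup Kˣ)
    (f : K → Fin (r + 1)) (hs : Function.Surjective f) (h0 : f 0 = 0)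
    (hf : ∀ x y : K, f x = f y ↔ ∃ g ∈ G, y = x * (g : K)) (c : K) :
    ∃ g ∈ G, ∃ h ∈ G, f ((g : K) - (h : K)) = f c := by
  classical
  by_cases hc : c = 0
  · exact ⟨1, G.one_mem, 1, G.one_mem, by simp [hc]⟩
  have hz : ∀ x : K, f x = 0 → x = 0 := by
    intro x hx
    rw [← h0, eq_comm, hf] at hx
    obtain ⟨g, _, hg⟩ := hx
    simpa using hg
  choose s hsf using hs
  have hs0 : s 0 = 0 := hz _ (hsf 0)
  obtain ⟨ι, hι, hmono⟩ := Combinatorics.Line.exists_mono_in_high_dimension (Fin (r + 1))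
    (Fin (r + 1))
  obtain ⟨lam, hlam⟩ := exists_lam (K := K) ι
  obtain ⟨l, c0, hl⟩ := hmono (fun w => f (∑ i, lam i * s (w i)))
  let I : Finset ι := univ.filter fun i => l.idxFun i = none
  have hI : I.Nonempty := by
    obtain ⟨i, hi⟩ := l.proper
    exact ⟨i, by simp [I, hi]⟩
  set d : K := ∑ i ∈ I, lam i with hd
  have hd0 : d ≠ 0 := hlam I hI
  set b : K := ∑ i ∈ univ.filter (fun i => ¬ l.idxFun i = none), lam i * s ((l.idxFun i).getD 0)
    with hb
  have hsum : ∀ x : Fin (r + 1), ∑ i, lam i * s (l x i) = b + d * s x := by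
    intro x
    rw [← Finset.sum_filter_add_sum_filter_not univ (fun i => l.idxFun i = none), add_comm]
    congr 1
    · refine Finset.sum_congr rfl fun i hi => ?_
      simp only [mem_filter, mem_univ, true_and] at hi
      congr 2
      cases hh : l.idxFun i with
      | none => exact absurd hh hi
      | some a => simp [Combinatorics.Line.coe_apply, hh]
    · rw [hd, Finset.sum_mul]
      refine Finset.sum_congr rfl fun i hi => ?_
      simp only [I, mem_filter, mem_univ, true_and] at hi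
      simp [Combinatorics.Line.coe_apply, hi]
  have hl' : ∀ x : Fin (r + 1), f (b + d * s x) = c0 := by
    intro x
    have := hl x
    simp only at this
    rwa [hsum x] at this
  have hfb : f b = c0 := by
    have := hl' 0
    rwa [hs0, mul_zero, add_zero] at this
  have hfc : f c ≠ 0 := fun h => hc (hz c h)
  have hb0 : b ≠ 0 := by
    intro hb0
    have h1 := hl' (f c)
    rw [← hfb, hb0, zero_add, h0] at h1
    have h2 := hz _ h1
    rcases mul_eq_zero.1 h2 with h3 | h3
    · exact hd0 h3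
    · have := hsf (f c)
      rw [h3, h0] at this
      exact hfc this.symm
  set x : Fin (r + 1) := f (c * b / d) with hx
  have h1 : f (c * b / d) = f (s x) := by rw [hsf x]
  obtain ⟨h', hh', h2⟩ := (hf _ _).1 h1
  have h3 : f b = f (b + d * s x) := by rw [hfb, hl' x]
  obtain ⟨g, hg, h4⟩ := (hf _ _).1 h3
  have h5 : (g : K) - ((1 : Kˣ) : K) = c * h' := by
    have h6 : b * (c * h') = b * ((g : K) - ((1 : Kˣ) : K)) := by
      have h7 : d * s x = c * b * h' := by
        rw [h2]
        field_simp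
      have h8 : b * (g : K) = b + c * b * h' := by rw [← h4, h7]
      rw [mul_sub, h8]
      simp
      ring
    exact (mul_left_cancel₀ hb0 h6).symm
  refine ⟨g, hg, 1, G.one_mem, ?_⟩
  rw [h5, eq_comm, hf]
  exact ⟨h', hh', rfl⟩

section Fourier

variable {K : Type} [Field K] [Fintype K] [DecidableEq K] (G : Subgroup Kˣ) [Fintype G]

/-- character sums over `c G` -/
noncomputable def Sc (c : K) (ψ : AddChar K ℂ) : ℂ := ∑ g : G, ψ (c * ((g : Kˣ) : K))

theorem Sc_zero (c : K) : Sc G c (0 : AddChar K ℂ) = (Fintype.card G : ℂ) := by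
  unfold Sc
  simp only [AddChar.zero_apply, sum_const, nsmul_eq_mul, mul_one]
  rw [Finset.card_univ]

theorem sum_sq (c : K) (hc : c ≠ 0) :
    ∑ ψ : AddChar K ℂ, ‖Sc G c ψ‖ ^ 2 = (Fintype.card K : ℝ) * Fintype.card G := by
  classical
  have h1 : ∀ ψ : AddChar K ℂ, ((‖Sc G c ψ‖ ^ 2 : ℝ) : ℂ) =
      ∑ g : G, ∑ h : G, ψ (c * ((g : Kˣ) : K) - c * ((h : Kˣ) : K)) := by
    intro ψ
    rw [← Complex.normSq_eq_norm_sq, ← Complex.mul_conj]
    unfold Sc
    rw [map_sum, Finset.sum_mul_sum]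
    refine Finset.sum_congr rfl fun g _ => Finset.sum_congr rfl fun h _ => ?_
    rw [← AddChar.map_neg_eq_conj, ← AddChar.map_add_eq_mul, sub_eq_add_neg]
  have h2 : ((∑ ψ : AddChar K ℂ, ‖Sc G c ψ‖ ^ 2 : ℝ) : ℂ) =
      ((Fintype.card K : ℝ) * Fintype.card G : ℝ) := by
    rw [Complex.ofReal_sum]
    rw [Finset.sum_congr rfl fun ψ _ => h1 ψ]
    rw [Finset.sum_comm]
    have : ∀ g : G, ∑ ψ : AddChar K ℂ, ∑ h : G, ψ (c * ((g : Kˣ) : K) - c * ((h : Kˣ) : K)) =
        (Fintype.card K : ℂ) := by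
      intro g
      rw [Finset.sum_comm, Finset.sum_eq_single g]
      · rw [AddChar.sum_apply_eq_ite, if_pos (sub_self _)]
      · intro h _ hne
        rw [AddChar.sum_apply_eq_ite, if_neg]
        intro h3
        apply hne
        have h4 := mul_left_cancel₀ hc (sub_eq_zero.1 h3)
        exact Subtype.ext (Units.ext h4.symm)
      · intro h
        exact absurd (mem_univ g) h
    rw [Finset.sum_congr rfl fun g _ => this g]
    simp
    ring
  exact_mod_cast h2

theorem Sc_le (c : K) (hc : c ≠ 0) (ψ : AddChar K ℂ) (hψ : ψ ≠ 0) :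
    ‖Sc G c ψ‖ ^ 2 ≤ Fintype.card K := by
  classical
  have hprim : ψ.IsPrimitive := AddChar.IsPrimitive.of_ne_one hψ
  have h1 : ∀ a : G, Sc G c (ψ.mulShift ((a : Kˣ) : K)) = Sc G c ψ := by
    intro a
    unfold Sc
    refine Fintype.sum_equiv (Equiv.mulLeft a) _ _ fun g => ?_
    rw [AddChar.mulShift_apply]
    congr 1
    simp only [Equiv.coe_mulLeft, Subgroup.coe_mul, Units.val_mul]
    ring
  have h2 : ∑ a : G, ‖Sc G c (ψ.mulShift ((a : Kˣ) : K))‖ ^ 2 ≤
      ∑ χ : AddChar K ℂ, ‖Sc G c χ‖ ^ 2 := by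
    have hinj : Function.Injective fun a : G => ψ.mulShift ((a : Kˣ) : K) := by
      intro a b hab
      have := AddChar.to_mulShift_inj_of_isPrimitive hprim hab
      exact Subtype.ext (Units.ext this)
    rw [← Finset.sum_image (s := (univ : Finset G)) (g := fun a : G => ψ.mulShift ((a : Kˣ) : K))
      (f := fun χ => ‖Sc G c χ‖ ^ 2) (fun a _ b _ h => hinj h)]
    exact Finset.sum_le_sum_of_subset_of_nonneg (subset_univ _) fun _ _ _ => by positivity
  rw [sum_sq G c hc, Finset.sum_congr rfl fun a _ => by rw [h1 a]] at h2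
  rw [Finset.sum_const, Finset.card_univ, nsmul_eq_mul] at h2
  have hG : (0 : ℝ) < Fintype.card G := by exact_mod_cast Fintype.card_pos
  nlinarith

theorem finite_case (c : K) (hc : c ≠ 0)
    (h : ¬ ∃ g ∈ G, ∃ h ∈ G, ∃ k ∈ G, (g : K) - (h : K) = c * (k : K)) :
    (Fintype.card G : ℝ) ^ 2 ≤ Real.sqrt (Fintype.card K) * Fintype.card K := by
  classical
  push Not at h
  have h1 : ∑ ψ : AddChar K ℂ, Sc G 1 ψ * conj (Sc G 1 ψ) * conj (Sc G c ψ) = 0 := by
    have h2 : ∀ ψ : AddChar K ℂ, Sc G 1 ψ * conj (Sc G 1 ψ) * conj (Sc G c ψ) =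
        ∑ g : G, ∑ h : G, ∑ k : G, ψ (1 * ((g : Kˣ) : K) + -(1 * ((h : Kˣ) : K)) +
          -(c * ((k : Kˣ) : K))) := by
      intro ψ
      unfold Sc
      rw [map_sum, map_sum, Finset.sum_mul_sum, Finset.sum_mul]
      refine Finset.sum_congr rfl fun g _ => ?_
      rw [Finset.sum_mul]
      refine Finset.sum_congr rfl fun h _ => ?_
      rw [Finset.mul_sum]
      refine Finset.sum_congr rfl fun k _ => ?_
      rw [← AddChar.map_neg_eq_conj, ← AddChar.map_neg_eq_conj, ← AddChar.map_add_eq_mul,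
        ← AddChar.map_add_eq_mul]
    rw [Finset.sum_congr rfl fun ψ _ => h2 ψ, Finset.sum_comm]
    refine Finset.sum_eq_zero fun g _ => ?_
    rw [Finset.sum_comm]
    refine Finset.sum_eq_zero fun h' _ => ?_
    rw [Finset.sum_comm]
    refine Finset.sum_eq_zero fun k _ => ?_
    rw [AddChar.sum_apply_eq_ite, if_neg]
    intro h3
    apply h g g.2 h' h'.2 k k.2
    linear_combination h3
  have h3 : ∑ ψ ∈ (univ : Finset (AddChar K ℂ)).erase 0,
      Sc G 1 ψ * conj (Sc G 1 ψ) * conj (Sc G c ψ) = - (Fintype.card G : ℂ) ^ 3 := by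
    rw [← Finset.add_sum_erase univ _ (mem_univ (0 : AddChar K ℂ)), Sc_zero, Sc_zero] at h1
    rw [Complex.conj_natCast] at h1
    linear_combination h1
  have h4 : (Fintype.card G : ℝ) ^ 3 ≤ ∑ ψ ∈ (univ : Finset (AddChar K ℂ)).erase 0,
      ‖Sc G 1 ψ‖ ^ 2 * Real.sqrt (Fintype.card K) := by
    have h5 : (Fintype.card G : ℝ) ^ 3 = ‖- (Fintype.card G : ℂ) ^ 3‖ := by
      rw [norm_neg, norm_pow, Complex.norm_natCast]
    rw [h5, ← h3]
    refine (norm_sum_le _ _).trans (Finset.sum_le_sum fun ψ hψ => ?_)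
    have hψ' : ψ ≠ 0 := (Finset.mem_erase.1 hψ).1
    rw [norm_mul, norm_mul, Complex.norm_conj, Complex.norm_conj, ← sq]
    refine mul_le_mul_of_nonneg_left ?_ (by positivity)
    exact Real.le_sqrt_of_sq_le (Sc_le G c hc ψ hψ')
  have h6 : ∑ ψ ∈ (univ : Finset (AddChar K ℂ)).erase 0,
      ‖Sc G 1 ψ‖ ^ 2 * Real.sqrt (Fintype.card K) ≤
      (Fintype.card K : ℝ) * Fintype.card G * Real.sqrt (Fintype.card K) := by
    rw [← sum_sq G 1 one_ne_zero, ← Finset.sum_mul]
    refine mul_le_mul_of_nonneg_right ?_ (Real.sqrt_nonneg _)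
    exact Finset.sum_le_sum_of_subset_of_nonneg (erase_subset _ _) fun _ _ _ => by positivity
  have hG : (0 : ℝ) < Fintype.card G := by exact_mod_cast Fintype.card_pos
  have h7 := h4.trans h6
  have h8 : (Fintype.card G : ℝ) * (Fintype.card G : ℝ) ^ 2 ≤
      (Fintype.card G : ℝ) * (Real.sqrt (Fintype.card K) * Fintype.card K) := by
    calc (Fintype.card G : ℝ) * (Fintype.card G : ℝ) ^ 2 = (Fintype.card G : ℝ) ^ 3 := by ring
      _ ≤ _ := h7
      _ = _ := by ring
  exact le_of_mul_le_mul_left h8 hG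

end Fourier

/-- Size of the subgroup. -/
theorem card_G {K : Type} [Field K] [Fintype K] {r : ℕ} (G : Subgroup Kˣ) [Fintype G]
    (f : K → Fin (r + 1)) (hs : Function.Surjective f) (h0 : f 0 = 0)
    (hf : ∀ x y : K, f x = f y ↔ ∃ g ∈ G, y = x * (g : K)) :
    Fintype.card K = r * Fintype.card G + 1 := by
  classical
  have hz : ∀ x : K, f x = 0 → x = 0 := by
    intro x hx
    rw [← h0, eq_comm, hf] at hx
    obtain ⟨g, _, hg⟩ := hx
    simpa using hg
  have h1 : Fintype.card K = ∑ i : Fin (r + 1), (univ.filter fun x : K => f x = i).card := by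
    rw [← Finset.card_univ]
    exact Finset.card_eq_sum_card_fiberwise fun x _ => mem_univ _
  rw [h1, Fin.sum_univ_succ, add_comm]
  congr 1
  · rw [Finset.sum_const_nat (m := Fintype.card G)]
    · simp
    · intro i _
      obtain ⟨x, hx⟩ := hs i.succ
      have hx0 : x ≠ 0 := by
        rintro rfl
        rw [h0] at hx
        exact (Fin.succ_ne_zero i) hx.symm
      have : (univ.filter fun y : K => f y = i.succ) =
          (univ : Finset G).image (fun g : G => x * ((g : Kˣ) : K)) := by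
        ext y
        simp only [mem_filter, mem_univ, true_and, mem_image]
        rw [← hx, eq_comm, hf]
        constructor
        · rintro ⟨g, hg, rfl⟩
          exact ⟨⟨g, hg⟩, rfl⟩
        · rintro ⟨g, rfl⟩
          exact ⟨g, g.2, rfl⟩
      rw [this, Finset.card_image_of_injective]
      · rfl
      · intro a b hab
        exact Subtype.ext (Units.ext (mul_left_cancel₀ hx0 hab))
  · have : (univ.filter fun x : K => f x = 0) = {0} := by
      ext x
      simp only [mem_filter, mem_univ, true_and, mem_singleton]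
      exact ⟨hz x, fun h => by rw [h, h0]⟩
    rw [this]
    rfl

/-- All differences occur as soon as the field is large compared to the index. -/
theorem large_case {K : Type} [Field K] {r : ℕ} (hr : 1 ≤ r) (G : Subgroup Kˣ)
    (f : K → Fin (r + 1)) (hs : Function.Surjective f) (h0 : f 0 = 0)
    (hf : ∀ x y : K, f x = f y ↔ ∃ g ∈ G, y = x * (g : K))
    (hK : Infinite K ∨ 16 * r ^ 4 < Nat.card K) (c : K) :
    ∃ g ∈ G, ∃ h ∈ G, f ((g : K) - (h : K)) = f c := by
  classical
  by_cases hinf : Infinite K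
  · exact infinite_case G f hs h0 hf c
  have hq := hK.resolve_left hinf
  by_cases hc : c = 0
  · exact ⟨1, G.one_mem, 1, G.one_mem, by simp [hc]⟩
  have hfin : Finite K := not_infinite_iff_finite.1 hinf
  letI : Fintype K := Fintype.ofFinite K
  letI : Fintype G := Fintype.ofFinite G
  rw [Nat.card_eq_fintype_card] at hq
  have hcard := card_G G f hs h0 hf
  by_contra hcon
  have h1 := finite_case G c hc (by
    rintro ⟨g, hg, h, hh, k, hk, e⟩
    apply hcon
    refine ⟨g, hg, h, hh, ?_⟩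
    rw [e, eq_comm, hf]
    exact ⟨k, hk, rfl⟩)
  set q : ℝ := (Fintype.card K : ℝ) with hqd
  set N : ℝ := (Fintype.card G : ℝ) with hN
  have e1 : q = r * N + 1 := by rw [hqd, hcard, hN]; push_cast; ring
  have hr' : (1 : ℝ) ≤ r := by exact_mod_cast hr
  have hq' : 16 * (r : ℝ) ^ 4 < q := by rw [hqd]; exact_mod_cast hq
  have hN1 : 1 ≤ N := by
    rw [hN]
    exact_mod_cast Fintype.card_pos
  have hs1 : Real.sqrt q * Real.sqrt q = q := Real.mul_self_sqrt (by rw [hqd]; positivity)
  set s : ℝ := Real.sqrt q with hsd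
  have hs0 : 0 ≤ s := Real.sqrt_nonneg _
  have hs4 : 4 * (r : ℝ) ^ 2 < s := by
    rw [hsd]
    apply Real.lt_sqrt_of_sq_lt
    calc (4 * (r : ℝ) ^ 2) ^ 2 = 16 * (r : ℝ) ^ 4 := by ring
      _ < q := hq'
  -- N^2 ≤ s^3, q = r N + 1 ≤ 2 r N, so q^2 ≤ 4 r^2 N^2 ≤ 4 r^2 s^3 < s^4 = q^2
  have h2 : N ^ 2 ≤ s * q := h1
  have h3 : q ≤ 2 * r * N := by
    have : 1 ≤ (r : ℝ) * N := by nlinarith
    linarith
  have hq0 : 0 ≤ q := by rw [hqd]; positivity
  have h4 : q ^ 2 ≤ (2 * r * N) ^ 2 := by gcongr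
  have h5 : (2 * r * N) ^ 2 ≤ 4 * r ^ 2 * (s * q) := by
    calc (2 * r * N) ^ 2 = 4 * r ^ 2 * N ^ 2 := by ring
      _ ≤ 4 * r ^ 2 * (s * q) := by gcongr
  have hqpos : 0 < q := by
    have : 0 < 16 * (r : ℝ) ^ 4 := by positivity
    linarith
  have hspos : 0 < s := by
    have : 0 < 4 * (r : ℝ) ^ 2 := by positivity
    linarith
  have h6 : 4 * (r : ℝ) ^ 2 * (s * q) < s * (s * q) := by
    apply mul_lt_mul_of_pos_right hs4
    positivity
  have h7 : s * (s * q) = q ^ 2 := by
    rw [← mul_assoc, hs1, sq]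
  linarith

end Pool.Agent.H83HF
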