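import Mathlib

/-!
Counting lemmas: relations avoiding a matching, orbits of triples in a commutative group.
-/

set_option autoImplicit false

open Finset

namespace Pool.Agent.H83HF

/-- Number of two-colourings in which none of the (pairwise disjoint) pairs is all true. -/
theorem count_bad {V ι : Type*} [Fintype V] [DecidableEq V] (s : Finset ι) (u v : ι → V)
    (hd : ∀ i ∈ s, ∀ j ∈ s, i ≠ j → u i ≠ u j ∧ u i ≠ v j ∧ v i ≠ u j ∧ v i ≠ v j) :
    4 ^ s.card * (univ.filter fun ω : V → Bool =>
      ∀ i ∈ s, ¬ (ω (u i) = true ∧ ω (v i) = true)).card ≤ 3 ^ s.card * 2 ^ Fintype.card V := by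
  classical
  induction s using Finset.induction_on with
  | empty => simp
  | insert i s hi ih =>
    have ih' := ih (fun a ha b hb hab => hd a (mem_insert_of_mem ha) b (mem_insert_of_mem hb) hab)
    set C : Finset (V → Bool) := univ.filter fun ω : V → Bool =>
      ∀ j ∈ s, ¬ (ω (u j) = true ∧ ω (v j) = true) with hC
    set D : Finset (V → Bool) := C.filter fun ω => ω (u i) = true ∧ ω (v i) = true with hD
    have hsplit : (C.filter fun ω => ¬ (ω (u i) = true ∧ ω (v i) = true)).card + D.card = C.card := by
      rw [add_comm]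
      exact Finset.card_filter_add_card_filter_not _
    have hE : (univ.filter fun ω : V → Bool =>
        ∀ j ∈ insert i s, ¬ (ω (u j) = true ∧ ω (v j) = true)) =
        C.filter fun ω => ¬ (ω (u i) = true ∧ ω (v i) = true) := by
      ext ω
      simp only [hC, mem_filter, mem_univ, true_and, mem_insert, forall_eq_or_imp]
      tauto
    have hle : C.card ≤ (D ×ˢ (univ : Finset (Bool × Bool))).card := by
      apply Finset.card_le_card_of_injOn
        (fun ω => (Function.update (Function.update ω (u i) true) (v i) true, (ω (u i), ω (v i))))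
      · intro ω hω
        simp only [hC, coe_filter, mem_univ, true_and, Set.mem_ofPred_eq] at hω
        simp only [hD, hC, coe_product, Set.mem_prod, coe_filter, mem_filter, mem_univ, true_and,
          Set.mem_ofPred_eq, coe_univ, Set.mem_univ, and_true]
        refine ⟨?_, ?_, ?_⟩
        · intro j hj
          have hij : i ≠ j := fun h => hi (h ▸ hj)
          obtain ⟨h1, h2, h3, h4⟩ := hd i (mem_insert_self _ _) j (mem_insert_of_mem hj) hij
          rw [Function.update_of_ne h3.symm, Function.update_of_ne h1.symm,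
            Function.update_of_ne h4.symm, Function.update_of_ne h2.symm]
          exact hω j hj
        · by_cases h : u i = v i
          · rw [h]; simp
          · rw [Function.update_of_ne h]; simp
        · simp
      · intro ω _ ω' _ h
        simp only [Prod.mk.injEq] at h
        obtain ⟨h1, h2, h3⟩ := h
        funext x
        by_cases hx : x = v i
        · rw [hx]; exact h3
        by_cases hx' : x = u i
        · rw [hx']; exact h2
        have := congrFun h1 x
        rwa [Function.update_of_ne hx, Function.update_of_ne hx', Function.update_of_ne hx,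
          Function.update_of_ne hx'] at this
    have hle' : C.card ≤ D.card * 4 := by
      simpa using hle
    rw [hE, card_insert_of_notMem hi, pow_succ, pow_succ]
    have h3 : 4 * (C.filter fun ω => ¬ (ω (u i) = true ∧ ω (v i) = true)).card ≤ 3 * C.card := by
      omega
    calc 4 ^ s.card * 4 * (C.filter fun ω => ¬ (ω (u i) = true ∧ ω (v i) = true)).card
        = 4 ^ s.card * (4 * (C.filter fun ω => ¬ (ω (u i) = true ∧ ω (v i) = true)).card) := by ring
      _ ≤ 4 ^ s.card * (3 * C.card) := Nat.mul_le_mul_left _ h3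
      _ = 3 * (4 ^ s.card * C.card) := by ring
      _ ≤ 3 * (3 ^ s.card * 2 ^ Fintype.card V) := Nat.mul_le_mul_left _ ih'
      _ = 3 ^ s.card * 3 * 2 ^ Fintype.card V := by ring

/-- A large independent set. -/
theorem exists_indep {α : Type*} [Fintype α] [DecidableEq α] (N : α → Finset α) (D : ℕ)
    (hself : ∀ x, x ∈ N x) (hN : ∀ x, (N x).card ≤ D) (hsymm : ∀ x y, x ∈ N y → y ∈ N x) :
    ∃ s : Finset α, (∀ x ∈ s, ∀ y ∈ s, x ≠ y → x ∉ N y) ∧ Fintype.card α ≤ D * s.card := by
  classical
  let P : Finset (Finset α) := univ.filter fun s => ∀ x ∈ s, ∀ y ∈ s, x ≠ y → x ∉ N y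
  have hP : P.Nonempty := ⟨∅, by simp [P]⟩
  obtain ⟨s, hs, hmax⟩ := Finset.exists_max_image P Finset.card hP
  have hs' : ∀ x ∈ s, ∀ y ∈ s, x ≠ y → x ∉ N y := by simpa [P] using hs
  refine ⟨s, hs', ?_⟩
  have hcov : (univ : Finset α) ⊆ s.biUnion N := by
    intro x _
    by_contra hx
    have hx' : ∀ y ∈ s, x ∉ N y := by
      intro y hy h
      exact hx (mem_biUnion.2 ⟨y, hy, h⟩)
    have hxs : x ∉ s := fun h => hx' x h (hself x)
    have hins : insert x s ∈ P := by
      simp only [P, mem_filter, mem_univ, true_and]
      intro a ha b hb hab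
      rw [mem_insert] at ha hb
      rcases ha with rfl | ha
      · rcases hb with rfl | hb
        · exact absurd rfl hab
        · exact hx' b hb
      · rcases hb with rfl | hb
        · exact fun h => hx' a ha (hsymm _ _ h)
        · exact hs' a ha b hb hab
    have := hmax _ hins
    rw [card_insert_of_notMem hxs] at this
    omega
  calc Fintype.card α = (univ : Finset α).card := rfl
    _ ≤ (s.biUnion N).card := card_le_card hcov
    _ ≤ s.card * D := card_biUnion_le_card_mul _ _ _ fun x _ => hN x
    _ = D * s.card := mul_comm _ _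

section Orb

variable {M : Type*} [CommGroup M]

/-- Triples up to permutation and scaling. -/
def tset (M : Type*) [CommGroup M] : Setoid (Fin 3 → M) where
  r s t := ∃ σ : Equiv.Perm (Fin 3), ∃ l : M, ∀ i, t i = l * s (σ i)
  iseqv :=
    { refl := fun s => ⟨1, 1, fun i => by simp⟩
      symm := by
        rintro s t ⟨σ, l, h⟩
        refine ⟨σ⁻¹, l⁻¹, fun i => ?_⟩
        rw [h (σ⁻¹ i)]
        simp
      trans := by
        rintro s t w ⟨σ, l, h⟩ ⟨τ, k, h'⟩
        refine ⟨σ * τ, k * l, fun i => ?_⟩
        rw [h' i, h (τ i), mul_assoc]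
        rfl }

/-- The orbits of triples. -/
def Orb (M : Type*) [CommGroup M] : Type _ := Quotient (tset M)

noncomputable instance [Fintype M] : Fintype (Orb M) := by
  classical
  unfold Orb
  exact Fintype.ofFinite _

noncomputable instance : DecidableEq (Orb M) := Classical.decEq _

/-- The orbit of a triple. -/
def O (a b c : M) : Orb M := Quotient.mk (tset M) ![a, b, c]

theorem O_eq_iff (a b c a' b' c' : M) : O a b c = O a' b' c' ↔
    ∃ σ : Equiv.Perm (Fin 3), ∃ l : M, ∀ i, ![a', b', c'] i = l * ![a, b, c] (σ i) := by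
  constructor
  · intro h
    exact Quotient.exact (s := tset M) h
  · intro h
    exact Quotient.sound (s := tset M) h

theorem O_surj (w : Orb M) : ∃ a b c : M, w = O a b c := by
  induction w using Quotient.inductionOn with
  | h s =>
    refine ⟨s 0, s 1, s 2, ?_⟩
    unfold O
    congr 1
    funext i
    fin_cases i <;> rfl

theorem O_swap12 (a b c : M) : O a b c = O b a c := by
  rw [O_eq_iff]
  refine ⟨Equiv.swap 0 1, 1, fun i => ?_⟩
  rw [one_mul]
  fin_cases i
  · simp
  · simp
  · have : (Equiv.swap (0 : Fin 3) 1) 2 = 2 := by decide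
    simp [this]

theorem O_swap23 (a b c : M) : O a b c = O a c b := by
  rw [O_eq_iff]
  refine ⟨Equiv.swap 1 2, 1, fun i => ?_⟩
  rw [one_mul]
  fin_cases i
  · have : (Equiv.swap (1 : Fin 3) 2) 0 = 0 := by decide
    simp [this]
  · simp
  · simp

theorem O_rot (a b c : M) : O a b c = O b c a := by
  rw [O_swap12, O_swap23]

theorem O_smul (l a b c : M) : O (l * a) (l * b) (l * c) = O a b c := by
  symm
  rw [O_eq_iff]
  refine ⟨1, l, fun i => ?_⟩
  fin_cases i <;> simp

variable [Fintype M] [DecidableEq M]

theorem card_fib (a b : M) (w : Orb M) : (univ.filter fun x : M => O a b x = w).card ≤ 6 := by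
  classical
  by_cases h : ∃ x0, O a b x0 = w
  · obtain ⟨x0, h0⟩ := h
    have hsub : (univ.filter fun x : M => O a b x = w) ⊆
        (univ : Finset (Equiv.Perm (Fin 3))).image
          (fun σ => a * (![a, b, x0] (σ 0))⁻¹ * ![a, b, x0] (σ 2)) := by
      intro x hx
      simp only [mem_filter, mem_univ, true_and] at hx
      rw [← h0] at hx
      have hx' := hx.symm
      rw [O_eq_iff] at hx'
      obtain ⟨σ, l, hl⟩ := hx'
      simp only [mem_image, mem_univ, true_and]
      refine ⟨σ, ?_⟩
      have e0 := hl 0
      have e2 := hl 2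
      have e0' : a = l * ![a, b, x0] (σ 0) := e0
      have e2' : x = l * ![a, b, x0] (σ 2) := e2
      rw [e2']
      congr 1
      rw [mul_inv_eq_iff_eq_mul]
      exact e0'
    refine (card_le_card hsub).trans (card_image_le.trans ?_)
    rw [Finset.card_univ, Fintype.card_perm]
    decide
  · have : (univ.filter fun x : M => O a b x = w) = ∅ := by
      rw [filter_eq_empty_iff]
      intro x _ hx
      exact h ⟨x, hx⟩
    rw [this]
    simp

theorem card_fib' (e c d : M) (w : Orb M) :
    (univ.filter fun x : M => O (e * x) c d = w).card ≤ 6 := by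
  refine le_trans ?_ (card_fib c d w)
  apply Finset.card_le_card_of_injOn (fun x => e * x)
  · intro x hx
    simp only [coe_filter, mem_univ, true_and, Set.mem_ofPred_eq] at hx ⊢
    rw [← O_rot]
    exact hx
  · intro x _ y _ h
    exact mul_left_cancel h

theorem card_Orb : (Fintype.card M) ^ 2 ≤ 6 * Fintype.card (Orb M) := by
  classical
  have h := Finset.card_le_mul_card_image_of_maps_to (s := (univ : Finset (M × M)))
    (t := (univ : Finset (Orb M))) (f := fun p => O 1 p.1 p.2) (fun _ _ => mem_univ _) 6 ?_
  · simpa [sq] using h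
  · intro w _
    by_cases h : ∃ p0 : M × M, O 1 p0.1 p0.2 = w
    · obtain ⟨⟨b0, c0⟩, h0⟩ := h
      have hsub : (univ.filter fun p : M × M => O 1 p.1 p.2 = w) ⊆
          (univ : Finset (Equiv.Perm (Fin 3))).image
            (fun σ => ((![1, b0, c0] (σ 0))⁻¹ * ![1, b0, c0] (σ 1),
              (![1, b0, c0] (σ 0))⁻¹ * ![1, b0, c0] (σ 2))) := by
        rintro ⟨b, c⟩ hx
        simp only [mem_filter, mem_univ, true_and] at hx
        rw [← h0] at hx
        have hx' := hx.symm
        rw [O_eq_iff] at hx'
        obtain ⟨σ, l, hl⟩ := hx'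
        simp only [mem_image, mem_univ, true_and]
        refine ⟨σ, ?_⟩
        have e0' : (1 : M) = l * ![1, b0, c0] (σ 0) := hl 0
        have e1' : b = l * ![1, b0, c0] (σ 1) := hl 1
        have e2' : c = l * ![1, b0, c0] (σ 2) := hl 2
        have e3 : (![1, b0, c0] (σ 0))⁻¹ = l := by
          rw [inv_eq_iff_mul_eq_one, mul_comm]
          exact e0'.symm
        rw [e3, ← e1', ← e2']
      refine (card_le_card hsub).trans (card_image_le.trans ?_)
      rw [Finset.card_univ, Fintype.card_perm]
      decide
    · have : (univ.filter fun p : M × M => O 1 p.1 p.2 = w) = ∅ := by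
        rw [filter_eq_empty_iff]
        intro x _ hx
        exact h ⟨x, hx⟩
      rw [this]
      simp

/-- The associativity property of a relation. -/
def Good (e : M) (ω : Orb M → Bool) : Prop :=
  ∀ a b c d : M, ∃ x : M, ω (O a b x) = true ∧ ω (O (e * x) c d) = true

theorem card_bad_one (e a b c d : M) (k : ℕ) (hk : 24 * k ≤ Fintype.card M) :
    4 ^ k * (univ.filter fun ω : Orb M → Bool =>
      ∀ x : M, ¬ (ω (O a b x) = true ∧ ω (O (e * x) c d) = true)).card
      ≤ 3 ^ k * 2 ^ Fintype.card (Orb M) := by
  classical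
  let u : M → Orb M := fun x => O a b x
  let v : M → Orb M := fun x => O (e * x) c d
  let N : M → Finset M := fun y => univ.filter fun x =>
    u x = u y ∨ u x = v y ∨ v x = u y ∨ v x = v y
  have hN : ∀ y, (N y).card ≤ 24 := by
    intro y
    have hsub : N y ⊆ (univ.filter fun x => u x = u y) ∪ ((univ.filter fun x => u x = v y) ∪
        ((univ.filter fun x => v x = u y) ∪ (univ.filter fun x => v x = v y))) := by
      intro x hx
      simp only [N, mem_filter, mem_univ, true_and, mem_union] at hx ⊢
      tauto
    refine (card_le_card hsub).trans ?_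
    refine (card_union_le _ _).trans ?_
    have h1 := card_fib a b (u y)
    have h2 := card_fib a b (v y)
    have h3 := card_fib' e c d (u y)
    have h4 := card_fib' e c d (v y)
    have h5 := card_union_le (univ.filter fun x => u x = v y)
        ((univ.filter fun x => v x = u y) ∪ (univ.filter fun x => v x = v y))
    have h6 := card_union_le (univ.filter fun x => v x = u y) (univ.filter fun x => v x = v y)
    simp only [u, v] at h1 h2 h3 h4 h5 h6 ⊢
    omega
  obtain ⟨s, hs, hcard⟩ := exists_indep N 24 (fun x => by simp [N]) hN (by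
    intro x y h
    simp only [N, mem_filter, mem_univ, true_and] at h ⊢
    rcases h with h | h | h | h
    · exact Or.inl h.symm
    · exact Or.inr (Or.inr (Or.inl h.symm))
    · exact Or.inr (Or.inl h.symm)
    · exact Or.inr (Or.inr (Or.inr h.symm)))
  have hks : k ≤ s.card := by omega
  obtain ⟨t, hts, htc⟩ := Finset.exists_subset_card_eq hks
  have hd : ∀ i ∈ t, ∀ j ∈ t, i ≠ j → u i ≠ u j ∧ u i ≠ v j ∧ v i ≠ u j ∧ v i ≠ v j := by
    intro i hi j hj hij
    have := hs i (hts hi) j (hts hj) hij
    simp only [N, mem_filter, mem_univ, true_and, not_or] at this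
    exact this
  have := count_bad t u v hd
  rw [htc] at this
  refine le_trans (Nat.mul_le_mul_left _ (card_le_card ?_)) this
  intro ω hω
  simp only [mem_filter, mem_univ, true_and] at hω ⊢
  exact fun i _ => hω i

open Classical in
/-- At least half of the relations are good. -/
theorem card_good (e : M) (k : ℕ) (hk : 24 * k ≤ Fintype.card M)
    (hk2 : 2 * (Fintype.card M) ^ 4 * 3 ^ k ≤ 4 ^ k) :
    2 ^ Fintype.card (Orb M) ≤ 2 * (univ.filter fun ω : Orb M → Bool => Good e ω).card := by
  set B : Finset (Orb M → Bool) := univ.filter fun ω => ¬ Good e ω with hB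
  have hBc : 4 ^ k * B.card ≤ (Fintype.card M) ^ 4 * (3 ^ k * 2 ^ Fintype.card (Orb M)) := by
    have hsub : B ⊆ (univ : Finset (M × M × M × M)).biUnion fun p =>
        univ.filter fun ω : Orb M → Bool =>
          ∀ x : M, ¬ (ω (O p.1 p.2.1 x) = true ∧ ω (O (e * x) p.2.2.1 p.2.2.2) = true) := by
      intro ω hω
      rw [hB, mem_filter] at hω
      have hω' := hω.2
      unfold Good at hω'
      push Not at hω'
      obtain ⟨a, b, c, d, h⟩ := hω'
      simp only [mem_biUnion, mem_univ, true_and, mem_filter]
      exact ⟨(a, b, c, d), fun x hx => h x hx.1 hx.2⟩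
    calc 4 ^ k * B.card ≤ 4 ^ k * ((univ : Finset (M × M × M × M)).biUnion fun p =>
        univ.filter fun ω : Orb M → Bool =>
          ∀ x : M, ¬ (ω (O p.1 p.2.1 x) = true ∧ ω (O (e * x) p.2.2.1 p.2.2.2) = true)).card :=
          Nat.mul_le_mul_left _ (card_le_card hsub)
      _ ≤ 4 ^ k * ∑ p : M × M × M × M, (univ.filter fun ω : Orb M → Bool =>
          ∀ x : M, ¬ (ω (O p.1 p.2.1 x) = true ∧ ω (O (e * x) p.2.2.1 p.2.2.2) = true)).card :=
          Nat.mul_le_mul_left _ card_biUnion_le
      _ = ∑ p : M × M × M × M, 4 ^ k * (univ.filter fun ω : Orb M → Bool =>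
          ∀ x : M, ¬ (ω (O p.1 p.2.1 x) = true ∧ ω (O (e * x) p.2.2.1 p.2.2.2) = true)).card :=
          Finset.mul_sum _ _ _
      _ ≤ ∑ p : M × M × M × M, 3 ^ k * 2 ^ Fintype.card (Orb M) :=
          Finset.sum_le_sum fun p _ => card_bad_one e p.1 p.2.1 p.2.2.1 p.2.2.2 k hk
      _ = (Fintype.card M) ^ 4 * (3 ^ k * 2 ^ Fintype.card (Orb M)) := by
          rw [Finset.sum_const, Finset.card_univ, smul_eq_mul]
          congr 1
          simp only [Fintype.card_prod]
          ring
  have h1 : 2 * B.card ≤ 2 ^ Fintype.card (Orb M) := by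
    have h2 : 4 ^ k * (2 * B.card) ≤ 4 ^ k * 2 ^ Fintype.card (Orb M) := by
      calc 4 ^ k * (2 * B.card) = 2 * (4 ^ k * B.card) := by ring
        _ ≤ 2 * ((Fintype.card M) ^ 4 * (3 ^ k * 2 ^ Fintype.card (Orb M))) :=
          Nat.mul_le_mul_left _ hBc
        _ = (2 * (Fintype.card M) ^ 4 * 3 ^ k) * 2 ^ Fintype.card (Orb M) := by ring
        _ ≤ 4 ^ k * 2 ^ Fintype.card (Orb M) := Nat.mul_le_mul_right _ hk2
    exact Nat.le_of_mul_le_mul_left h2 (by positivity)
  have h3 : (univ.filter fun ω : Orb M → Bool => Good e ω).card + B.card =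
      2 ^ Fintype.card (Orb M) := by
    rw [hB, Finset.card_filter_add_card_filter_not]
    simp
  omega

open Classical in
/-- Few relations contain all triples `(1, e, z)`. -/
theorem card_full (e : M) (f : ℕ) (hf : 6 * f ≤ Fintype.card M + 5) :
    2 ^ f * (univ.filter fun ω : Orb M → Bool => ∀ z : M, ω (O 1 e z) = true).card ≤
      2 ^ Fintype.card (Orb M) := by
  set F : Finset (Orb M) := (univ : Finset M).image fun z => O 1 e z with hF
  have hFc : f ≤ F.card := by
    have := Finset.card_le_mul_card_image_of_maps_to (s := (univ : Finset M))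
      (t := F) (f := fun z => O 1 e z) (fun z _ => mem_image_of_mem _ (mem_univ z)) 6
      (fun w _ => card_fib 1 e w)
    rw [Finset.card_univ] at this
    omega
  have heq : (univ.filter fun ω : Orb M → Bool => ∀ z : M, ω (O 1 e z) = true) =
      Fintype.piFinset (fun w : Orb M => if w ∈ F then {true} else (univ : Finset Bool)) := by
    ext ω
    simp only [mem_filter, mem_univ, true_and, Fintype.mem_piFinset]
    constructor
    · intro h w
      by_cases hw : w ∈ F
      · simp only [hw, if_true, mem_singleton]
        rw [hF, mem_image] at hw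
        obtain ⟨z, _, rfl⟩ := hw
        exact h z
      · simp [hw]
    · intro h z
      have := h (O 1 e z)
      rw [if_pos (mem_image_of_mem _ (mem_univ z))] at this
      simpa using this
  rw [heq, Fintype.card_piFinset]
  have hprod : ∏ w : Orb M, (if w ∈ F then ({true} : Finset Bool) else (univ : Finset Bool)).card
      = 2 ^ (Fintype.card (Orb M) - F.card) := by
    have : ∀ w : Orb M, (if w ∈ F then ({true} : Finset Bool) else (univ : Finset Bool)).card =
        if w ∈ F then 1 else 2 := by
      intro w
      split_ifs <;> simp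
    rw [Finset.prod_congr rfl fun w _ => this w, Finset.prod_ite]
    simp only [prod_const_one, prod_const, one_mul]
    congr 1
    rw [← Finset.card_univ, ← Finset.card_sdiff_of_subset (subset_univ F)]
    congr 1
    ext w
    simp
  rw [hprod, ← pow_add]
  apply Nat.pow_le_pow_right (by norm_num)
  have : F.card ≤ Fintype.card (Orb M) := Finset.card_le_univ F
  omega

end Orb

end Pool.Agent.H83HF
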