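import Mathlib
import Pool.Agent.H83HF.Count

/-!
Hyperfields from relations on triples.
-/

set_option autoImplicit false

open Finset

namespace Pool.Agent.H83HF

/-- multiplication tables -/
abbrev MulT (r : ℕ) := Fin (r + 1) → Fin (r + 1) → Fin (r + 1)
/-- hyperaddition tables -/
abbrev AddT (r : ℕ) := Fin (r + 1) → Fin (r + 1) → Set (Fin (r + 1))
/-- structures -/
abbrev Str (r : ℕ) := MulT r × AddT r

/-- abelian group with zero -/
def IsGZ {r : ℕ} (m : MulT r) : Prop :=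
  (∃ u : Fin (r+1), u ≠ 0 ∧ ∀ a, m u a = a) ∧
  (∀ a b, m a b = m b a) ∧
  (∀ a b c, m (m a b) c = m a (m b c)) ∧
  (∀ a, m 0 a = 0) ∧
  (∀ a b, a ≠ 0 → b ≠ 0 → m a b ≠ 0) ∧
  (∀ a, a ≠ 0 → ∃ b, ∀ c, m (m a b) c = c)

/-- hyperfields, as in the frozen statement -/
def IsHyp {r : ℕ} (p : Str r) : Prop :=
  ((∃ u : Fin (r+1), u ≠ 0 ∧ ∀ a, p.1 u a = a) ∧
    (∀ a b, p.1 a b = p.1 b a) ∧
    (∀ a b c, p.1 (p.1 a b) c = p.1 a (p.1 b c)) ∧
    (∀ a, p.1 0 a = 0) ∧
    (∀ a b, a ≠ 0 → b ≠ 0 → p.1 a b ≠ 0) ∧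
    (∀ a, a ≠ 0 → ∃ b, ∀ c, p.1 (p.1 a b) c = c) ∧
    (∀ a b, (p.2 a b).Nonempty) ∧
    (∀ a b, p.2 a b = p.2 b a) ∧
    (∀ a b c, (⋃ x ∈ p.2 a b, p.2 x c) = ⋃ x ∈ p.2 b c, p.2 a x) ∧
    (∀ a, p.2 0 a = {a}) ∧
    (∀ a, ∃! b, (0 : Fin (r+1)) ∈ p.2 a b) ∧
    (∀ a b c d, a ∈ p.2 b c → (0 : Fin (r+1)) ∈ p.2 b d → c ∈ p.2 a d) ∧
    (∀ a b c, (fun x => p.1 a x) '' p.2 b c = p.2 (p.1 a b) (p.1 a c)))

theorem IsHyp.gz {r : ℕ} {p : Str r} (h : IsHyp p) : IsGZ p.1 :=
  ⟨h.1, h.2.1, h.2.2.1, h.2.2.2.1, h.2.2.2.2.1, h.2.2.2.2.2.1⟩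

/-- nonzero elements -/
abbrev Nz (r : ℕ) := {a : Fin (r + 1) // a ≠ 0}

theorem card_Nz (r : ℕ) : Fintype.card (Nz r) = r := by
  rw [Fintype.card_subtype_compl]
  simp

theorem IsGZ.inv_ex {r : ℕ} {m : MulT r} (h : IsGZ m) (a : Nz r) :
    ∃ b : Nz r, ∀ c, m (m a b) c = c := by
  obtain ⟨⟨u, hu0, hu⟩, h2, h3, h4, h5, h6⟩ := h
  obtain ⟨b, hb⟩ := h6 a a.2
  refine ⟨⟨b, ?_⟩, hb⟩
  rintro rfl
  have := hb u
  rw [h2 a 0, h4, h4] at this
  exact hu0 this.symm

/-- The group of nonzero elements. -/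
@[reducible] noncomputable def grp {r : ℕ} {m : MulT r} (h : IsGZ m) : CommGroup (Nz r) :=
  let one : Nz r := ⟨h.1.choose, h.1.choose_spec.1⟩
  let inv : Nz r → Nz r := fun a => (h.inv_ex a).choose
  { mul := fun a b => ⟨m a b, h.2.2.2.2.1 a b a.2 b.2⟩
    one := one
    inv := inv
    mul_assoc := fun a b c => Subtype.ext (h.2.2.1 a b c)
    one_mul := fun a => Subtype.ext (h.1.choose_spec.2 a)
    mul_one := fun a => Subtype.ext ((h.2.1 a _).trans (h.1.choose_spec.2 a))
    mul_comm := fun a b => Subtype.ext (h.2.1 a b)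
    inv_mul_cancel := fun a => Subtype.ext (by
      have h1 := (h.inv_ex a).choose_spec one
      have h2 : m (m a (inv a)) one = m a (inv a) := by
        rw [h.2.1 _ (one : Fin (r + 1))]
        exact h.1.choose_spec.2 _
      rw [h2] at h1
      change m (inv a) a = one
      rw [h.2.1]
      exact h1) }

section

variable {r : ℕ} {m : MulT r} (h : IsGZ m)

theorem grp_mul (a b : Nz r) : letI := grp h; ((a * b : Nz r) : Fin (r + 1)) = m a b := rfl

theorem grp_one_mul (a : Fin (r + 1)) : letI := grp h; m ((1 : Nz r) : Fin (r + 1)) a = a :=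
  h.1.choose_spec.2 a

theorem grp_unit (u : Fin (r + 1)) (hu : ∀ a, m u a = a) :
    letI := grp h; u = ((1 : Nz r) : Fin (r + 1)) := by
  let _ := grp h
  have h1 := hu ((1 : Nz r) : Fin (r + 1))
  have h2 := grp_one_mul h u
  rw [h.2.1] at h2
  rw [← h2]
  exact h1

/-- hyperaddition defined by a relation -/
def hadd (e : Nz r) (ω : (letI := grp h; Orb (Nz r)) → Bool) : AddT r :=
  let _ := grp h
  fun a b => {z | (a = 0 ∧ z = b) ∨ (b = 0 ∧ z = a) ∨ ∃ (ha : a ≠ 0) (hb : b ≠ 0),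
    ((z = 0 ∧ (⟨b, hb⟩ : Nz r) = e * ⟨a, ha⟩) ∨
      ∃ hz : z ≠ 0, ω (O (⟨a, ha⟩ : Nz r) ⟨b, hb⟩ (e * ⟨z, hz⟩)) = true)}

variable (e : Nz r) (ω : (letI := grp h; Orb (Nz r)) → Bool)

theorem hadd_zero_left (b z : Fin (r + 1)) : z ∈ hadd h e ω 0 b ↔ z = b := by
  simp only [hadd, Set.mem_ofPred_eq, true_and, ne_eq, not_true_eq_false, IsEmpty.exists_iff,
    or_false]
  constructor
  · rintro (h1 | ⟨h1, h2⟩)
    · exact h1
    · rw [h1, h2]
  · exact fun h1 => Or.inl h1

theorem hadd_zero_right (a z : Fin (r + 1)) : z ∈ hadd h e ω a 0 ↔ z = a := by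
  simp only [hadd, Set.mem_ofPred_eq, true_and, ne_eq, not_true_eq_false, IsEmpty.exists_iff,
    exists_false, or_false]
  constructor
  · rintro (⟨h1, h2⟩ | h1)
    · rw [h1, h2]
    · exact h1
  · exact fun h1 => Or.inr h1

theorem hadd_zero_mem (a b : Nz r) :
    letI := grp h; (0 : Fin (r + 1)) ∈ hadd h e ω a b ↔ b = e * a := by
  let _ := grp h
  have ha := a.2
  have hb := b.2
  simp only [hadd, Set.mem_ofPred_eq]
  constructor
  · rintro (⟨h1, h2⟩ | ⟨h1, h2⟩ | ⟨h1, h2, h3 | ⟨h3, h4⟩⟩)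
    · exact absurd h1 ha
    · exact absurd h1 hb
    · exact h3.2
    · exact absurd rfl h3
  · intro h1
    exact Or.inr (Or.inr ⟨ha, hb, Or.inl ⟨trivial, h1⟩⟩)

theorem hadd_mem (a b z : Nz r) :
    letI := grp h; (z : Fin (r + 1)) ∈ hadd h e ω a b ↔ ω (O a b (e * z)) = true := by
  let _ := grp h
  have ha := a.2
  have hb := b.2
  have hz := z.2
  simp only [hadd, Set.mem_ofPred_eq]
  constructor
  · rintro (⟨h1, h2⟩ | ⟨h1, h2⟩ | ⟨h1, h2, h3 | ⟨h3, h4⟩⟩)
    · exact absurd h1 ha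
    · exact absurd h1 hb
    · exact absurd h3.1 hz
    · exact h4
  · intro h1
    exact Or.inr (Or.inr ⟨ha, hb, Or.inr ⟨hz, h1⟩⟩)

/-- every element is zero or a nonzero element -/
theorem cases0 (a : Fin (r + 1)) : a = 0 ∨ ∃ b : Nz r, a = b := by
  by_cases h : a = 0
  · exact Or.inl h
  · exact Or.inr ⟨⟨a, h⟩, rfl⟩

theorem hyp_of_good (he : letI := grp h; e * e = 1) (hg : letI := grp h; Good e ω) :
    IsHyp (m, hadd h e ω) := by
  let _ := grp h
  have hee : ∀ x : Nz r, e * (e * x) = x := by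
    intro x
    rw [← mul_assoc, he, one_mul]
  have he' : e * e = 1 := he
  have hgg : ∀ a b c d : Nz r, ∃ x : Nz r, ω (O a b x) = true ∧ ω (O (e * x) c d) = true := hg
  have hm0 : ∀ a, m 0 a = 0 := h.2.2.2.1
  have hm0' : ∀ a, m a 0 = 0 := fun a => (h.2.1 a 0).trans (hm0 a)
  have hne : ∀ a b, (hadd h e ω a b).Nonempty := by
    intro a b
    rcases cases0 a with rfl | ⟨a, rfl⟩
    · exact ⟨b, (hadd_zero_left h e ω b b).2 rfl⟩
    rcases cases0 b with rfl | ⟨b, rfl⟩
    · exact ⟨a, (hadd_zero_right h e ω a a).2 rfl⟩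
    obtain ⟨x, hx, _⟩ := hgg a b 1 1
    refine ⟨((e * x : Nz r) : Fin (r + 1)), ?_⟩
    change ((e * x : Nz r) : Fin (r + 1)) ∈ hadd h e ω a b
    rw [hadd_mem, hee]
    exact hx
  refine ⟨h.1, h.2.1, h.2.2.1, h.2.2.2.1, h.2.2.2.2.1, h.2.2.2.2.2, hne, ?_, ?_, ?_, ?_, ?_, ?_⟩
  · -- commutative
    intro a b
    ext z
    change z ∈ hadd h e ω a b ↔ z ∈ hadd h e ω b a
    rcases cases0 a with rfl | ⟨a, rfl⟩
    · rw [hadd_zero_left, hadd_zero_right]
    rcases cases0 b with rfl | ⟨b, rfl⟩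
    · rw [hadd_zero_left, hadd_zero_right]
    rcases cases0 z with rfl | ⟨z, rfl⟩
    · rw [hadd_zero_mem, hadd_zero_mem]
      constructor
      · rintro rfl
        rw [hee]
      · rintro rfl
        rw [hee]
    · rw [hadd_mem, hadd_mem, O_swap12]
  · -- associative
    intro a b c
    ext z
    simp only [Set.mem_iUnion, exists_prop]
    change (∃ x, x ∈ hadd h e ω a b ∧ z ∈ hadd h e ω x c) ↔
      (∃ x, x ∈ hadd h e ω b c ∧ z ∈ hadd h e ω a x)
    rcases cases0 a with rfl | ⟨a, rfl⟩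
    · simp only [hadd_zero_left, exists_eq_left, exists_eq_right']
    rcases cases0 b with rfl | ⟨b, rfl⟩
    · simp only [hadd_zero_left, hadd_zero_right, exists_eq_left]
    rcases cases0 c with rfl | ⟨c, rfl⟩
    · simp only [hadd_zero_right, exists_eq_left, exists_eq_right']
    rcases cases0 z with rfl | ⟨z, rfl⟩
    · have h1 : (∃ x, x ∈ hadd h e ω a b ∧ (0 : Fin (r + 1)) ∈ hadd h e ω x c) ↔
          ω (O a b c) = true := by
        constructor
        · rintro ⟨x, hx, hx0⟩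
          rcases cases0 x with rfl | ⟨x, rfl⟩
          · rw [hadd_zero_left] at hx0
            exact absurd hx0.symm c.2
          · rw [hadd_zero_mem] at hx0
            rw [hadd_mem] at hx
            rw [hx0]
            exact hx
        · intro h1
          refine ⟨((e * c : Nz r) : Fin (r + 1)), ?_, ?_⟩
          · rw [hadd_mem, hee]
            exact h1
          · rw [hadd_zero_mem, hee]
      have h2 : (∃ x, x ∈ hadd h e ω b c ∧ (0 : Fin (r + 1)) ∈ hadd h e ω a x) ↔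
          ω (O b c a) = true := by
        constructor
        · rintro ⟨x, hx, hx0⟩
          rcases cases0 x with rfl | ⟨x, rfl⟩
          · rw [hadd_zero_right] at hx0
            exact absurd hx0.symm a.2
          · rw [hadd_zero_mem] at hx0
            rw [hadd_mem] at hx
            rw [hx0, hee] at hx
            exact hx
        · intro h1
          refine ⟨((e * a : Nz r) : Fin (r + 1)), ?_, ?_⟩
          · rw [hadd_mem, hee]
            exact h1
          · rw [hadd_zero_mem]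
      rw [h1, h2, O_rot]
    · have h1 : (∃ x, x ∈ hadd h e ω a b ∧ (z : Fin (r + 1)) ∈ hadd h e ω x c) := by
        obtain ⟨x, hx1, hx2⟩ := hgg a b c (e * z)
        refine ⟨((e * x : Nz r) : Fin (r + 1)), ?_, ?_⟩
        · rw [hadd_mem, hee]
          exact hx1
        · rw [hadd_mem]
          exact hx2
      have h2 : (∃ x, x ∈ hadd h e ω b c ∧ (z : Fin (r + 1)) ∈ hadd h e ω a x) := by
        obtain ⟨x, hx1, hx2⟩ := hgg b c a (e * z)
        refine ⟨((e * x : Nz r) : Fin (r + 1)), ?_, ?_⟩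
        · rw [hadd_mem, hee]
          exact hx1
        · rw [hadd_mem, O_swap12]
          exact hx2
      exact ⟨fun _ => h2, fun _ => h1⟩
  · -- zero
    intro a
    ext z
    change z ∈ hadd h e ω 0 a ↔ z ∈ ({a} : Set _)
    rw [hadd_zero_left, Set.mem_singleton_iff]
  · -- inverse
    intro a
    change ∃! b, (0 : Fin (r + 1)) ∈ hadd h e ω a b
    rcases cases0 a with rfl | ⟨a, rfl⟩
    · refine ⟨0, (hadd_zero_left h e ω 0 0).2 rfl, fun b hb => ?_⟩
      exact ((hadd_zero_left h e ω b 0).1 hb).symm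
    · refine ⟨((e * a : Nz r) : Fin (r + 1)), ?_, fun b hb => ?_⟩
      · exact (hadd_zero_mem h e ω a (e * a)).2 rfl
      · rcases cases0 b with rfl | ⟨b, rfl⟩
        · exact absurd ((hadd_zero_right h e ω a 0).1 hb).symm a.2
        · rw [(hadd_zero_mem h e ω a b).1 hb]
  · -- reversibility
    intro a b c d h1 h2
    change a ∈ hadd h e ω b c at h1
    change (0 : Fin (r + 1)) ∈ hadd h e ω b d at h2
    change c ∈ hadd h e ω a d
    rcases cases0 b with rfl | ⟨b, rfl⟩
    · rw [hadd_zero_left] at h1 h2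
      rw [← h2, hadd_zero_right]
      exact h1.symm
    rcases cases0 d with rfl | ⟨d, rfl⟩
    · rw [hadd_zero_right] at h2
      exact absurd h2.symm b.2
    rw [hadd_zero_mem] at h2
    subst h2
    rcases cases0 c with rfl | ⟨c, rfl⟩
    · rw [hadd_zero_right] at h1
      rw [h1, hadd_zero_mem]
    rcases cases0 a with rfl | ⟨a, rfl⟩
    · rw [hadd_zero_mem] at h1
      rw [hadd_zero_left, h1]
    · rw [hadd_mem] at h1 ⊢
      have h3 : O a (e * b) (e * c) = O b c (e * a) := by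
        have h4 : O a (e * b) (e * c) = O (e * a) b c := by
          rw [← O_smul e a (e * b) (e * c), hee, hee]
        rw [h4, O_rot]
      rw [h3]
      exact h1
  · -- distributivity
    intro a b c
    ext z
    change z ∈ (fun x => m a x) '' hadd h e ω b c ↔ z ∈ hadd h e ω (m a b) (m a c)
    rcases cases0 a with rfl | ⟨a, rfl⟩
    · rw [hm0, hm0, hadd_zero_left]
      constructor
      · rintro ⟨x, _, rfl⟩
        exact hm0 x
      · rintro rfl
        obtain ⟨x, hx⟩ := hne b c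
        exact ⟨x, hx, hm0 x⟩
    rcases cases0 b with rfl | ⟨b, rfl⟩
    · rw [hm0', hadd_zero_left]
      constructor
      · rintro ⟨x, hx, rfl⟩
        rw [hadd_zero_left] at hx
        rw [hx]
      · rintro rfl
        exact ⟨c, (hadd_zero_left h e ω c c).2 rfl, rfl⟩
    rcases cases0 c with rfl | ⟨c, rfl⟩
    · rw [hm0', hadd_zero_right]
      constructor
      · rintro ⟨x, hx, rfl⟩
        rw [hadd_zero_right] at hx
        rw [hx]
      · rintro rfl
        exact ⟨b, (hadd_zero_right h e ω b b).2 rfl, rfl⟩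
    have e1 : m a b = ((a * b : Nz r) : Fin (r + 1)) := rfl
    have e2 : m a c = ((a * c : Nz r) : Fin (r + 1)) := rfl
    rw [e1, e2]
    rcases cases0 z with rfl | ⟨z, rfl⟩
    · rw [hadd_zero_mem]
      constructor
      · rintro ⟨x, hx, hx0⟩
        rcases cases0 x with rfl | ⟨x, rfl⟩
        · rw [hadd_zero_mem] at hx
          rw [hx, mul_left_comm]
        · exact absurd hx0 (h.2.2.2.2.1 a x a.2 x.2)
      · intro h1
        refine ⟨0, ?_, hm0' a⟩
        rw [hadd_zero_mem]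
        rw [mul_left_comm] at h1
        exact mul_left_cancel h1
    · rw [hadd_mem]
      constructor
      · rintro ⟨x, hx, hx0⟩
        rcases cases0 x with rfl | ⟨x, rfl⟩
        · exact absurd ((hm0' a).symm.trans hx0).symm z.2
        · have hz : z = a * x := Subtype.ext hx0.symm
          rw [hadd_mem] at hx
          rw [hz, mul_left_comm, O_smul]
          exact hx
      · intro h1
        refine ⟨((a⁻¹ * z : Nz r) : Fin (r + 1)), ?_, ?_⟩
        · rw [hadd_mem, ← O_smul a, mul_left_comm a e, mul_inv_cancel_left]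
          exact h1
        · change (((a * (a⁻¹ * z) : Nz r)) : Fin (r + 1)) = z
          rw [mul_inv_cancel_left]

theorem hadd_inj (he : letI := grp h; e * e = 1)
    (ω' : (letI := grp h; Orb (Nz r)) → Bool) (heq : hadd h e ω = hadd h e ω') : ω = ω' := by
  let _ := grp h
  funext w
  obtain ⟨a, b, c, rfl⟩ := O_surj w
  have hc : c = e * (e * c) := by
    rw [← mul_assoc]
    have he' : e * e = 1 := he
    rw [he', one_mul]
  have h1 := hadd_mem h e ω a b (e * c)
  have h2 := hadd_mem h e ω' a b (e * c)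
  rw [← hc] at h1 h2
  rw [heq, h2] at h1
  exact (Bool.eq_iff_iff.2 h1).symm

end

end Pool.Agent.H83HF
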