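import Mathlib
import Pool.Agent.H83HF.Hyp
import Pool.Agent.H83HF.Fld

/-!
Quotient hyperfields.
-/

set_option autoImplicit false

open Finset

namespace Pool.Agent.H83HF

/-- The data of a quotient hyperfield. -/
structure QD {r : ℕ} (p : Str r) (K : Type) [Field K] (G : Subgroup Kˣ) (f : K → Fin (r + 1)) :
    Prop where
  surj : Function.Surjective f
  zero : f 0 = 0
  cls : ∀ x y : K, f x = f y ↔ ∃ g ∈ G, y = x * (g : K)
  mul : ∀ x y : K, f (x * y) = p.1 (f x) (f y)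
  add : ∀ x y : K, p.2 (f x) (f y) = {z | ∃ g ∈ G, ∃ h ∈ G, z = f (x * (g : K) + y * (h : K))}

/-- quotient hyperfields as in the frozen statement -/
def IsQuot {r : ℕ} (p : Str r) : Prop :=
  ∃ (K : Type) (_ : Field K), ∃ G : Subgroup Kˣ, ∃ f : K → Fin (r+1),
                Function.Surjective f ∧ f 0 = 0 ∧
                (∀ x y : K, f x = f y ↔ ∃ g ∈ G, y = x * (g : K)) ∧
                (∀ x y : K, f (x * y) = p.1 (f x) (f y)) ∧
                (∀ x y : K, p.2 (f x) (f y) = {z | ∃ g ∈ G, ∃ h ∈ G, z = f (x * (g : K) + y * (h : K))})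

theorem isQuot_iff {r : ℕ} (p : Str r) : IsQuot p ↔
    ∃ (K : Type) (_ : Field K) (G : Subgroup Kˣ) (f : K → Fin (r+1)), QD p K G f := by
  constructor
  · rintro ⟨K, _, G, f, h1, h2, h3, h4, h5⟩
    exact ⟨K, inferInstance, G, f, ⟨h1, h2, h3, h4, h5⟩⟩
  · rintro ⟨K, _, G, f, h⟩
    exact ⟨K, inferInstance, G, f, h.1, h.2, h.3, h.4, h.5⟩

section

variable {r : ℕ} {p : Str r} {K : Type} [Field K] {G : Subgroup Kˣ} {f : K → Fin (r + 1)}

theorem QD.f_eq_zero (q : QD p K G f) (x : K) : f x = 0 ↔ x = 0 := by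
  constructor
  · intro hx
    rw [← q.zero, eq_comm, q.cls] at hx
    obtain ⟨g, _, hg⟩ := hx
    simpa using hg
  · rintro rfl
    exact q.zero

theorem QD.gz (q : QD p K G f) : IsGZ p.1 := by
  refine ⟨⟨f 1, ?_, ?_⟩, ?_, ?_, ?_, ?_, ?_⟩
  · rw [Ne, q.f_eq_zero]
    exact one_ne_zero
  · intro a
    obtain ⟨x, rfl⟩ := q.surj a
    rw [← q.mul, one_mul]
  · intro a b
    obtain ⟨x, rfl⟩ := q.surj a
    obtain ⟨y, rfl⟩ := q.surj b
    rw [← q.mul, ← q.mul, mul_comm]
  · intro a b c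
    obtain ⟨x, rfl⟩ := q.surj a
    obtain ⟨y, rfl⟩ := q.surj b
    obtain ⟨z, rfl⟩ := q.surj c
    rw [← q.mul, ← q.mul, ← q.mul, ← q.mul, mul_assoc]
  · intro a
    obtain ⟨x, rfl⟩ := q.surj a
    rw [← q.zero, ← q.mul, zero_mul]
  · intro a b
    obtain ⟨x, rfl⟩ := q.surj a
    obtain ⟨y, rfl⟩ := q.surj b
    rw [← q.mul, Ne, Ne, Ne, q.f_eq_zero, q.f_eq_zero, q.f_eq_zero]
    intro hx hy h
    rcases mul_eq_zero.1 h with h | h
    · exact hx h
    · exact hy h
  · intro a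
    obtain ⟨x, rfl⟩ := q.surj a
    rw [Ne, q.f_eq_zero]
    intro hx
    refine ⟨f x⁻¹, fun c => ?_⟩
    obtain ⟨y, rfl⟩ := q.surj c
    rw [← q.mul, ← q.mul, mul_inv_cancel₀ hx, one_mul]

/-- the class of `-1` -/
def QD.neg (q : QD p K G f) : Nz r := ⟨f (-1), by rw [Ne, q.f_eq_zero]; simp⟩

theorem QD.neg_neg (q : QD p K G f) : letI := grp q.gz; q.neg * q.neg = 1 := by
  let _ := grp q.gz
  apply Subtype.ext
  apply grp_unit q.gz
  intro a
  rw [grp_mul]
  change p.1 (p.1 (f (-1)) (f (-1))) a = a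
  obtain ⟨y, rfl⟩ := q.surj a
  rw [← q.mul, ← q.mul]
  simp

theorem QD.f_neg (q : QD p K G f) (x : K) (a : Nz r) (h : f x = a) :
    letI := grp q.gz; f (-x) = ((q.neg * a : Nz r) : Fin (r + 1)) := by
  let _ := grp q.gz
  rw [grp_mul, ← h]
  change f (-x) = p.1 (f (-1)) (f x)
  rw [← q.mul, neg_one_mul]

/-- zero sum triples -/
def QD.R (_q : QD p K G f) (s : Fin 3 → Nz r) : Prop :=
  ∃ x : Fin 3 → K, (∀ i, f (x i) = s i) ∧ ∑ i, x i = 0

theorem QD.R_inv (q : QD p K G f) (s t : Fin 3 → Nz r) (σ : Equiv.Perm (Fin 3)) (l : Nz r)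
    (h : letI := grp q.gz; ∀ i, t i = l * s (σ i)) (hs : q.R s) : q.R t := by
  let _ := grp q.gz
  obtain ⟨x, hx, hx0⟩ := hs
  obtain ⟨y, hy⟩ := q.surj l
  refine ⟨fun i => y * x (σ i), fun i => ?_, ?_⟩
  · rw [h i, grp_mul, q.mul, hy, hx]
  · rw [← Finset.mul_sum, Equiv.sum_comp σ x, hx0, mul_zero]

theorem QD.mem_iff (q : QD p K G f) (a b z : Nz r) : letI := grp q.gz;
    (z : Fin (r + 1)) ∈ p.2 a b ↔ q.R ![a, b, q.neg * z] := by
  let _ := grp q.gz
  obtain ⟨x, hx⟩ := q.surj a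
  obtain ⟨y, hy⟩ := q.surj b
  constructor
  · intro h
    rw [← hx, ← hy, q.add] at h
    obtain ⟨g, hg, k, hk, hz⟩ := h
    refine ⟨![x * g, y * k, -(x * g + y * k)], ?_, ?_⟩
    · intro i
      fin_cases i
      · change f (x * g) = a
        rw [← hx, eq_comm, q.cls]
        exact ⟨g, hg, rfl⟩
      · change f (y * k) = b
        rw [← hy, eq_comm, q.cls]
        exact ⟨k, hk, rfl⟩
      · exact q.f_neg _ _ hz.symm
    · simp [Fin.sum_univ_three]
  · rintro ⟨w, hw, hw0⟩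
    have h0 : f (w 0) = a := hw 0
    have h1 : f (w 1) = b := hw 1
    have h2 : f (w 2) = ((q.neg * z : Nz r) : Fin (r + 1)) := hw 2
    rw [← hx, eq_comm, q.cls] at h0
    rw [← hy, eq_comm, q.cls] at h1
    obtain ⟨g, hg, h0⟩ := h0
    obtain ⟨k, hk, h1⟩ := h1
    rw [← hx, ← hy, q.add]
    refine ⟨g, hg, k, hk, ?_⟩
    rw [Fin.sum_univ_three] at hw0
    have h3 : x * g + y * k = - w 2 := by
      rw [← h0, ← h1]
      linear_combination hw0
    rw [h3, q.f_neg _ _ h2, ← mul_assoc]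
    have := q.neg_neg
    rw [this, one_mul]

theorem QD.zero_mem_iff (q : QD p K G f) (a b : Nz r) : letI := grp q.gz;
    (0 : Fin (r + 1)) ∈ p.2 a b ↔ b = q.neg * a := by
  let _ := grp q.gz
  obtain ⟨x, hx⟩ := q.surj a
  obtain ⟨y, hy⟩ := q.surj b
  rw [← hx, ← hy, q.add]
  constructor
  · rintro ⟨g, hg, k, hk, h⟩
    rw [eq_comm, q.f_eq_zero] at h
    apply Subtype.ext
    rw [← q.f_neg x a hx, ← hy, eq_comm, q.cls]
    refine ⟨g * k⁻¹, G.mul_mem hg (G.inv_mem hk), ?_⟩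
    rw [Units.val_mul, ← mul_assoc]
    have h2 : y * k = - x * g := by linear_combination h
    rw [← h2, mul_assoc, Units.mul_inv, mul_one]
  · intro h
    have h1 : f y = f (-x) := by
      rw [hy, h, q.f_neg x a hx]
    rw [q.cls] at h1
    obtain ⟨g, hg, h1⟩ := h1
    refine ⟨1, G.one_mem, g, hg, ?_⟩
    rw [eq_comm, q.f_eq_zero, ← h1]
    simp

theorem QD.zero_left (q : QD p K G f) (b : Fin (r + 1)) : p.2 0 b = {b} := by
  obtain ⟨y, rfl⟩ := q.surj b
  rw [← q.zero, q.add]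
  ext z
  simp only [Set.mem_ofPred_eq, Set.mem_singleton_iff, zero_mul, zero_add]
  constructor
  · rintro ⟨g, _, k, hk, rfl⟩
    rw [eq_comm, q.cls]
    exact ⟨k, hk, rfl⟩
  · rintro rfl
    exact ⟨1, G.one_mem, 1, G.one_mem, by simp⟩

theorem QD.zero_right (q : QD p K G f) (b : Fin (r + 1)) : p.2 b 0 = {b} := by
  obtain ⟨y, rfl⟩ := q.surj b
  rw [← q.zero, q.add]
  ext z
  simp only [Set.mem_ofPred_eq, Set.mem_singleton_iff, zero_mul, add_zero]
  constructor
  · rintro ⟨g, hg, k, hk, rfl⟩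
    rw [eq_comm, q.cls]
    exact ⟨g, hg, rfl⟩
  · rintro rfl
    exact ⟨1, G.one_mem, 1, G.one_mem, by simp⟩

end

/-- full quotient hyperfields with given class of `-1` -/
def QF {r : ℕ} (p : Str r) (e : Fin (r + 1)) : Prop :=
  ∃ (K : Type) (_ : Field K) (G : Subgroup Kˣ) (f : K → Fin (r+1)), QD p K G f ∧ f (-1) = e ∧
    ∀ c : K, ∃ g ∈ G, ∃ h ∈ G, f ((g : K) - (h : K)) = f c

section

variable {r : ℕ} {m : MulT r} (h : IsGZ m) (e : Nz r)

open Classical in
/-- the relation of a quotient hyperfield -/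
noncomputable def om (A : AddT r) : (letI := grp h; Orb (Nz r)) → Bool :=
  letI := grp h
  fun w => decide (∃ a b z : Nz r, w = O a b (e * z) ∧ (z : Fin (r + 1)) ∈ A a b)

theorem om_spec (A : AddT r) (hA : QF (m, A) e) (a b z : Nz r) :
    letI := grp h; om h e A (O a b (e * z)) = true ↔ (z : Fin (r + 1)) ∈ A a b := by
  classical
  let _ := grp h
  obtain ⟨K, _, G, f, q, hq, -⟩ := hA
  have hqe : q.neg = e := Subtype.ext hq
  unfold om
  rw [decide_eq_true_iff]
  constructor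
  · rintro ⟨a', b', z', h1, h2⟩
    have h3 : q.R ![a', b', e * z'] := by
      have := (q.mem_iff a' b' z').1 h2
      rw [hqe] at this
      exact this
    have h4 : q.R ![a, b, e * z] := by
      obtain ⟨σ, l, hσ⟩ := (O_eq_iff _ _ _ _ _ _).1 h1.symm
      exact q.R_inv _ _ σ l hσ h3
    have h5 := (q.mem_iff a b z).2
    rw [hqe] at h5
    exact h5 h4
  · intro h1
    exact ⟨a, b, z, rfl, h1⟩

theorem QF_inj (A A' : AddT r) (hA : QF (m, A) e) (hA' : QF (m, A') e)
    (heq : om h e A = om h e A') : A = A' := by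
  let _ := grp h
  funext a b
  ext z
  have hA2 := hA
  have hA2' := hA'
  obtain ⟨K, _, G, f, q, hq, -⟩ := hA2
  obtain ⟨K', _, G', f', q', hq', -⟩ := hA2'
  have hqe : q.neg = e := Subtype.ext hq
  have hqe' : q'.neg = e := Subtype.ext hq'
  rcases cases0 a with rfl | ⟨a, rfl⟩
  · have e1 := q.zero_left b
    have e2 := q'.zero_left b
    simp only at e1 e2
    rw [e1, e2]
  rcases cases0 b with rfl | ⟨b, rfl⟩
  · have e1 := q.zero_right a
    have e2 := q'.zero_right a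
    simp only at e1 e2
    rw [e1, e2]
  rcases cases0 z with rfl | ⟨z, rfl⟩
  · have e1 := q.zero_mem_iff a b
    have e2 := q'.zero_mem_iff a b
    rw [hqe] at e1
    rw [hqe'] at e2
    exact e1.trans e2.symm
  · rw [← om_spec h e A hA, ← om_spec h e A' hA', heq]

theorem om_full (A : AddT r) (hA : QF (m, A) e) (he : letI := grp h; e * e = 1) :
    letI := grp h; ∀ z : Nz r, om h e A (O 1 e z) = true := by
  let _ := grp h
  intro z
  have hz : z = e * (e * z) := by
    rw [← mul_assoc]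
    have he' : e * e = 1 := he
    rw [he', one_mul]
  have key : om h e A (O 1 e (e * (e * z))) = true := by
    rw [om_spec h e A hA 1 e (e * z)]
    obtain ⟨K, _, G, f, q, hq, hfull⟩ := hA
    obtain ⟨c, hc⟩ := q.surj ((e * z : Nz r) : Fin (r + 1))
    obtain ⟨g, hg, k, hk, hgk⟩ := hfull c
    have h1 : ((1 : Nz r) : Fin (r + 1)) = f 1 := by
      symm
      apply grp_unit h
      intro a
      obtain ⟨y, rfl⟩ := q.surj a
      have := q.mul 1 y
      simp only at this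
      rw [← this, one_mul]
    rw [h1, ← hq]
    have h2 := q.add 1 (-1)
    simp only at h2
    rw [h2]
    refine ⟨g, hg, k, hk, ?_⟩
    rw [← hc, ← hgk]
    congr 1
    ring
  rwa [← hz] at key

/-- There are few full quotient hyperfields with given multiplication. -/
theorem card_B (he : letI := grp h; e * e = 1) (n : ℕ) (hn : 6 * n ≤ r + 5) :
    2 ^ n * ({A : AddT r | QF (m, A) e}).ncard ≤
      2 ^ (letI := grp h; Fintype.card (Orb (Nz r))) := by
  classical
  let _ := grp h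
  refine le_trans (Nat.mul_le_mul_left _ ?_) (card_full (M := Nz r) e n (by rw [card_Nz]; exact hn))
  rw [← Set.ncard_coe_finset]
  apply Set.ncard_le_ncard_of_injOn (om h e)
  · intro A hA
    simp only [coe_filter, mem_univ, true_and, Set.mem_ofPred_eq]
    exact om_full h e A hA he
  · intro A hA A' hA' heq
    exact QF_inj h e A A' hA hA' heq

/-- There are many hyperfields with given multiplication. -/
theorem card_A (he : letI := grp h; e * e = 1) (k : ℕ) (hk : 24 * k ≤ r)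
    (hk2 : 2 * r ^ 4 * 3 ^ k ≤ 4 ^ k) :
    2 ^ (letI := grp h; Fintype.card (Orb (Nz r))) ≤
    2 * ({A : AddT r | IsHyp (m, A) ∧
      (0 : Fin (r + 1)) ∈ A ((letI := grp h; (1 : Nz r)) : Fin (r + 1)) e}).ncard := by
  classical
  let _ := grp h
  refine le_trans (card_good (M := Nz r) e k (by rw [card_Nz]; exact hk)
    (by rw [card_Nz]; exact hk2)) (Nat.mul_le_mul_left _ ?_)
  rw [← Set.ncard_coe_finset]
  apply Set.ncard_le_ncard_of_injOn (hadd h e)
  · intro ω hω
    simp only [coe_filter, mem_univ, true_and, Set.mem_ofPred_eq] at hω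
    refine ⟨hyp_of_good h e ω he hω, ?_⟩
    rw [hadd_zero_mem, mul_one]
  · intro ω _ ω' _ heq
    exact hadd_inj h e ω he ω' heq

end

end Pool.Agent.H83HF
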