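import Mathlib
import Pool.Agent.H83HF.Quot

/-!
Isomorphism classes.
-/

set_option autoImplicit false

open Finset

namespace Pool.Agent.H83HF

/-- isomorphic structures -/
def Iso {r : ℕ} (p q : Str r) : Prop :=
  ∃ e : Fin (r+1) ≃ Fin (r+1), ∀ a b, e (p.1 a b) = q.1 (e a) (e b) ∧
    e '' p.2 a b = q.2 (e a) (e b)

/-- transport of structure -/
def act {r : ℕ} (e : Fin (r+1) ≃ Fin (r+1)) (p : Str r) : Str r :=
  (fun a b => e (p.1 (e.symm a) (e.symm b)), fun a b => e '' p.2 (e.symm a) (e.symm b))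

theorem iso_iff {r : ℕ} (p q : Str r) : Iso p q ↔ ∃ e, q = act e p := by
  constructor
  · rintro ⟨e, he⟩
    refine ⟨e, ?_⟩
    refine Prod.ext ?_ ?_
    · funext a b
      have := (he (e.symm a) (e.symm b)).1
      simp only [Equiv.apply_symm_apply] at this
      exact this.symm
    · funext a b
      have := (he (e.symm a) (e.symm b)).2
      simp only [Equiv.apply_symm_apply] at this
      exact this.symm
  · rintro ⟨e, rfl⟩
    exact ⟨e, fun a b => by simp [act]⟩

theorem Iso.refl {r : ℕ} (p : Str r) : Iso p p := ⟨Equiv.refl _, fun a b => by simp⟩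

theorem Iso.symm {r : ℕ} {p q : Str r} (h : Iso p q) : Iso q p := by
  obtain ⟨e, rfl⟩ := (iso_iff _ _).1 h
  rw [iso_iff]
  refine ⟨e.symm, ?_⟩
  unfold act
  refine Prod.ext ?_ ?_
  · funext a b
    simp
  · funext a b
    simp [Set.image_image]

theorem Iso.trans {r : ℕ} {p q s : Str r} (h : Iso p q) (h' : Iso q s) : Iso p s := by
  obtain ⟨e, he⟩ := h
  obtain ⟨e', he'⟩ := h'
  refine ⟨e.trans e', fun a b => ⟨?_, ?_⟩⟩
  · simp only [Equiv.trans_apply]
    rw [(he a b).1, (he' _ _).1]
  · simp only [Equiv.coe_trans]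
    rw [Set.image_comp, (he a b).2, (he' _ _).2]
    rfl

/-- classes of hyperfields -/
def HC (r : ℕ) : Set (Set (Str r)) := {C | ∃ p, IsHyp p ∧ C = {q | IsHyp q ∧ Iso p q}}
/-- classes of quotient hyperfields -/
def QC (r : ℕ) : Set (Set (Str r)) := {C | ∃ p, IsQuot p ∧ C = {q | IsQuot q ∧ Iso p q}}

theorem hyp_le (r : ℕ) : ({p : Str r | IsHyp p}).ncard ≤ (HC r).ncard * (r + 1).factorial := by
  classical
  set s : Finset (Str r) := univ.filter fun p => IsHyp p with hs
  have h1 : ({p : Str r | IsHyp p}).ncard = s.card := by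
    rw [← Set.ncard_coe_finset, hs]
    simp
  have h2 := Finset.card_le_mul_card_image (f := fun p : Str r => {q | IsHyp q ∧ Iso p q}) s
    (r + 1).factorial ?_
  · rw [h1]
    refine h2.trans ?_
    rw [mul_comm]
    refine Nat.mul_le_mul_right _ ?_
    rw [← Set.ncard_coe_finset]
    apply Set.ncard_le_ncard _ (Set.toFinite _)
    intro C hC
    simp only [coe_image, Set.mem_image, mem_coe, hs, mem_filter, mem_univ, true_and] at hC
    obtain ⟨p, hp, rfl⟩ := hC
    exact ⟨p, hp, rfl⟩
  · intro C hC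
    simp only [mem_image, hs, mem_filter, mem_univ, true_and] at hC
    obtain ⟨p, hp, rfl⟩ := hC
    have hsub : (s.filter fun x => {q | IsHyp q ∧ Iso x q} = {q | IsHyp q ∧ Iso p q}) ⊆
        (univ : Finset (Fin (r+1) ≃ Fin (r+1))).image fun e => act e p := by
      intro x hx
      simp only [hs, mem_filter, mem_univ, true_and] at hx
      have h3 : x ∈ {q | IsHyp q ∧ Iso x q} := ⟨hx.1, Iso.refl x⟩
      rw [hx.2] at h3
      obtain ⟨e, he⟩ := (iso_iff _ _).1 h3.2
      simp only [mem_image, mem_univ, true_and]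
      exact ⟨e, he.symm⟩
    refine (card_le_card hsub).trans (card_image_le.trans ?_)
    rw [Finset.card_univ, Fintype.card_perm, Fintype.card_fin]

/-- generators -/
theorem exists_gen (M : Type) [Group M] [Finite M] (k : ℕ) :
    ∃ g : Fin k → M, 2 ^ k ≤ Nat.card (Subgroup.closure (Set.range g)) ∨
      Subgroup.closure (Set.range g) = ⊤ := by
  induction k with
  | zero =>
    refine ⟨Fin.elim0, Or.inl ?_⟩
    rw [pow_zero]
    exact Nat.card_pos
  | succ k ih =>
    obtain ⟨g, hg⟩ := ih
    by_cases htop : Subgroup.closure (Set.range g) = ⊤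
    · refine ⟨Fin.snoc g 1, Or.inr ?_⟩
      rw [eq_top_iff, ← htop]
      apply Subgroup.closure_mono
      rintro _ ⟨i, rfl⟩
      exact ⟨i.castSucc, by simp⟩
    · have hg' := hg.resolve_right htop
      obtain ⟨x, hx⟩ : ∃ x, x ∉ Subgroup.closure (Set.range g) := by
        by_contra h
        push Not at h
        exact htop (eq_top_iff.2 fun y _ => h y)
      refine ⟨Fin.snoc g x, Or.inl ?_⟩
      set H := Subgroup.closure (Set.range g) with hH
      set H' := Subgroup.closure (Set.range (Fin.snoc g x : Fin (k + 1) → M)) with hH'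
      have hle : H ≤ H' := by
        apply Subgroup.closure_mono
        rintro _ ⟨i, rfl⟩
        exact ⟨i.castSucc, by simp⟩
      have hxH : x ∈ H' := Subgroup.subset_closure ⟨Fin.last k, by simp⟩
      have hdvd : Nat.card H ∣ Nat.card H' := Subgroup.card_dvd_of_le hle
      have hne : Nat.card H ≠ Nat.card H' := by
        intro h
        have : H = H' := Subgroup.eq_of_le_of_card_ge hle h.ge
        rw [this] at hx
        exact hx hxH
      obtain ⟨c, hc⟩ := hdvd
      have hpos : 0 < Nat.card H' := Nat.card_pos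
      have hc2 : 2 ≤ c := by
        rcases c with _ | _ | c
        · simp at hc
          omega
        · simp at hc
          exact absurd hc.symm hne
        · omega
      rw [pow_succ, hc]
      exact Nat.mul_le_mul hg' hc2

theorem exists_gen' (M : Type) [Group M] [Finite M] (k : ℕ) (hk : Nat.card M < 2 ^ k) :
    ∃ g : Fin k → M, Subgroup.closure (Set.range g) = ⊤ := by
  obtain ⟨g, hg | hg⟩ := exists_gen M k
  · exfalso
    have := Nat.card_le_card_of_injective
      (Subtype.val : Subgroup.closure (Set.range g) → M) Subtype.val_injective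
    omega
  · exact ⟨g, hg⟩

theorem act_QD {r : ℕ} {p : Str r} {K : Type} [Field K] {G : Subgroup Kˣ} {f : K → Fin (r + 1)}
    (q : QD p K G f) (e : Fin (r+1) ≃ Fin (r+1)) (he : e 0 = 0) :
    QD (act e p) K G (fun x => e (f x)) where
  surj := e.surjective.comp q.surj
  zero := by rw [q.zero, he]
  cls := fun x y => by rw [e.injective.eq_iff, q.cls]
  mul := fun x y => by
    simp only [act, Equiv.symm_apply_apply]
    rw [q.mul]
  add := fun x y => by
    simp only [act, Equiv.symm_apply_apply]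
    rw [q.add]
    ext z
    simp only [Set.mem_image, Set.mem_ofPred_eq]
    constructor
    · rintro ⟨w, ⟨g, hg, h, hh, rfl⟩, rfl⟩
      exact ⟨g, hg, h, hh, rfl⟩
    · rintro ⟨g, hg, h, hh, rfl⟩
      exact ⟨_, ⟨g, hg, h, hh, rfl⟩, rfl⟩

theorem act_QF {r : ℕ} {p : Str r} {a : Fin (r + 1)} (h : QF p a) (e : Fin (r+1) ≃ Fin (r+1))
    (he : e 0 = 0) : QF (act e p) (e a) := by
  obtain ⟨K, _, G, f, q, hq, hf⟩ := h
  refine ⟨K, inferInstance, G, _, act_QD q e he, by rw [hq], fun c => ?_⟩
  obtain ⟨g, hg, k, hk, h1⟩ := hf c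
  exact ⟨g, hg, k, hk, by rw [h1]⟩

/-- classes of full quotient hyperfields -/
def QCF (r : ℕ) : Set (Set (Str r)) := {C | C ∈ QC r ∧ ∃ p ∈ C, ∃ a, QF p a}

theorem QF.isQuot {r : ℕ} {p : Str r} {a : Fin (r + 1)} (h : QF p a) : IsQuot p := by
  obtain ⟨K, _, G, f, q, _⟩ := h
  exact (isQuot_iff p).2 ⟨K, inferInstance, G, f, q⟩

theorem qcf_le (r k : ℕ) (hk : r < 2 ^ k) :
    (QCF r).ncard * r.factorial ≤ ({p : Str r | ∃ a, QF p a}).ncard * (r + 1) ^ k := by
  classical
  have hch : ∀ C : QCF r, ∃ p : Str r, p ∈ C.1 ∧ ∃ a, QF p a := fun C => C.2.2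
  choose P hPC hPF using hch
  have hgz : ∀ C : QCF r, IsGZ (P C).1 := by
    intro C
    obtain ⟨a, K, _, G, f, q, _⟩ := hPF C
    exact q.gz
  have hgen : ∀ C : QCF r, ∃ g : Fin k → Nz r,
      (letI := grp (hgz C); Subgroup.closure (Set.range g) = ⊤) := by
    intro C
    let _ := grp (hgz C)
    exact exists_gen' (Nz r) k (by rw [Nat.card_eq_fintype_card, card_Nz]; exact hk)
  choose g hg using hgen
  let dec : Equiv.Perm (Fin r) → Equiv.Perm (Fin (r + 1)) := fun σ =>
    Equiv.Perm.decomposeFin.symm (0, σ)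
  have hdec : ∀ σ, dec σ 0 = 0 := fun σ => Equiv.Perm.decomposeFin_symm_apply_zero 0 σ
  have hdeci : Function.Injective dec := by
    intro σ τ h
    have := Equiv.Perm.decomposeFin.symm.injective h
    exact (Prod.mk.inj this).2
  -- the class is determined by any of its members
  have hcl : ∀ C : QCF r, ∀ e : Fin (r+1) ≃ Fin (r+1), C.1 = {q | IsQuot q ∧ Iso (act e (P C)) q} := by
    intro C e
    obtain ⟨⟨p, hp, hC⟩, _⟩ := C.2
    have h1 := hPC C
    rw [hC] at h1
    have h2 : Iso p (act e (P C)) := h1.2.trans ((iso_iff _ _).2 ⟨e, rfl⟩)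
    rw [hC]
    ext q
    exact ⟨fun h => ⟨h.1, h2.symm.trans h.2⟩, fun h => ⟨h.1, h2.trans h.2⟩⟩
  let Φ : QCF r × Equiv.Perm (Fin r) → ({p : Str r | ∃ a, QF p a}) × (Fin k → Fin (r + 1)) :=
    fun x => (⟨act (dec x.2) (P x.1), by
      obtain ⟨a, ha⟩ := hPF x.1
      exact ⟨_, act_QF ha _ (hdec _)⟩⟩, fun i => dec x.2 (g x.1 i))
  have hΦ : Function.Injective Φ := by
    rintro ⟨C, σ⟩ ⟨C', σ'⟩ h
    have h1 : act (dec σ) (P C) = act (dec σ') (P C') := congrArg (fun z => z.1.1) h
    have h2 : ∀ i, dec σ (g C i) = dec σ' (g C' i) := fun i => congrFun (congrArg (fun z => z.2) h) i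
    have hCC : C = C' := by
      apply Subtype.ext
      rw [hcl C (dec σ), hcl C' (dec σ'), h1]
    subst hCC
    refine Prod.ext rfl ?_
    apply hdeci
    let _ := grp (hgz C)
    set τ := dec σ with hτ
    set τ' := dec σ' with hτ'
    have hm : ∀ a b, τ'.symm (τ ((P C).1 a b)) = (P C).1 (τ'.symm (τ a)) (τ'.symm (τ b)) := by
      intro a b
      have h3 : τ ((P C).1 (τ.symm (τ a)) (τ.symm (τ b))) =
          τ' ((P C).1 (τ'.symm (τ a)) (τ'.symm (τ b))) :=
        congrFun (congrFun (congrArg (fun z => z.1) h1) (τ a)) (τ b)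
      rw [Equiv.symm_apply_apply, Equiv.symm_apply_apply] at h3
      rw [h3, Equiv.symm_apply_apply]
    let F : Subgroup (Nz r) :=
      { carrier := {x | τ x = τ' x}
        mul_mem' := by
          intro a b ha hb
          simp only [Set.mem_ofPred_eq] at ha hb ⊢
          have h3 := hm a b
          rw [ha, hb, Equiv.symm_apply_apply, Equiv.symm_apply_apply] at h3
          rw [grp_mul]
          rw [Equiv.symm_apply_eq] at h3
          exact h3
        one_mem' := by
          simp only [Set.mem_ofPred_eq]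
          have h3 : ∀ a, (P C).1 (τ'.symm (τ ((1 : Nz r) : Fin (r + 1)))) a = a := by
            intro a
            obtain ⟨b, rfl⟩ : ∃ b, a = τ'.symm (τ b) := ⟨τ.symm (τ' a), by simp⟩
            rw [← hm, grp_one_mul (hgz C)]
          have h4 := grp_unit (hgz C) _ h3
          rw [Equiv.symm_apply_eq] at h4
          exact h4
        inv_mem' := by
          intro a ha
          simp only [Set.mem_ofPred_eq] at ha ⊢
          have h5 : ((a * a⁻¹ : Nz r) : Fin (r + 1)) = ((1 : Nz r) : Fin (r + 1)) := by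
            rw [mul_inv_cancel]
          have h3 := hm a (a⁻¹ : Nz r)
          rw [← grp_mul (hgz C), h5, ha, Equiv.symm_apply_apply] at h3
          -- unit
          have h6 : τ'.symm (τ ((1 : Nz r) : Fin (r + 1))) = ((1 : Nz r) : Fin (r + 1)) := by
            apply grp_unit (hgz C)
            intro b
            obtain ⟨c, rfl⟩ : ∃ c, b = τ'.symm (τ c) := ⟨τ.symm (τ' b), by simp⟩
            rw [← hm, grp_one_mul (hgz C)]
          rw [h6] at h3
          have hne : τ'.symm (τ ((a⁻¹ : Nz r) : Fin (r + 1))) ≠ 0 := by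
            intro h0
            rw [Equiv.symm_apply_eq, hτ', hdec] at h0
            have : τ ((a⁻¹ : Nz r) : Fin (r + 1)) = τ 0 := by rw [h0, hτ, hdec]
            exact (a⁻¹ : Nz r).2 (τ.injective this)
          have h7 : (1 : Nz r) = a * ⟨_, hne⟩ := Subtype.ext h3
          have h8 : a⁻¹ = ⟨_, hne⟩ := inv_eq_of_mul_eq_one_right h7.symm
          have h9 : ((a⁻¹ : Nz r) : Fin (r + 1)) = τ'.symm (τ ((a⁻¹ : Nz r) : Fin (r + 1))) :=
            congrArg Subtype.val h8
          rw [eq_comm, Equiv.symm_apply_eq] at h9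
          exact h9 }
    have hF : F = ⊤ := by
      rw [eq_top_iff, ← hg C, Subgroup.closure_le]
      rintro _ ⟨i, rfl⟩
      exact h2 i
    ext a
    rcases cases0 a with rfl | ⟨a, rfl⟩
    · rw [hτ, hτ', hdec, hdec]
    · have : a ∈ F := by rw [hF]; trivial
      exact congrArg Fin.val this
  have h3 := Nat.card_le_card_of_injective Φ hΦ
  rw [Nat.card_prod, Nat.card_prod] at h3
  simp only [Nat.card_eq_fintype_card (α := Equiv.Perm (Fin r)), Fintype.card_perm,
    Fintype.card_fin] at h3
  have h4 : Nat.card (Fin k → Fin (r + 1)) = (r + 1) ^ k := by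
    rw [Nat.card_eq_fintype_card]; simp
  rw [h4] at h3
  exact h3

end Pool.Agent.H83HF
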