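import Mathlib
import Pool.Agent.H83HF.Cls

/-!
Comparison of labelled counts.
-/

set_option autoImplicit false

open Finset

namespace Pool.Agent.H83HF

open Classical in
/-- data of a structure: multiplication and minus one -/
noncomputable def kap {r : ℕ} (p : Str r) : MulT r × Fin (r + 1) :=
  (p.1, if h : ∃ b, ∃ u, (∀ a, p.1 u a = a) ∧ (0 : Fin (r+1)) ∈ p.2 u b then h.choose else 0)

theorem kap_eq {r : ℕ} {p : Str r} (hp : IsHyp p) (e : Fin (r + 1))
    (he : letI := grp hp.gz; (0 : Fin (r + 1)) ∈ p.2 ((1 : Nz r) : Fin (r + 1)) e) :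
    kap p = (p.1, e) := by
  classical
  let _ := grp hp.gz
  unfold kap
  have h : ∃ b, ∃ u, (∀ a, p.1 u a = a) ∧ (0 : Fin (r+1)) ∈ p.2 u b :=
    ⟨e, _, grp_one_mul hp.gz, he⟩
  rw [dif_pos h]
  refine Prod.ext rfl ?_
  change h.choose = e
  obtain ⟨u, hu, h0⟩ := h.choose_spec
  have hu1 := grp_unit hp.gz u hu
  rw [hu1] at h0
  obtain ⟨b, _, hb⟩ := hp.2.2.2.2.2.2.2.2.2.2.1 ((1 : Nz r) : Fin (r + 1))
  rw [hb _ h0, hb _ he]

theorem hyp_fib {r : ℕ} (m : MulT r) (h : IsGZ m) (e : Nz r) (he : letI := grp h; e * e = 1)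
    (k : ℕ) (hk : 24 * k ≤ r) (hk2 : 2 * r ^ 4 * 3 ^ k ≤ 4 ^ k) :
    2 ^ (letI := grp h; Fintype.card (Orb (Nz r))) ≤
      2 * ({p : Str r | IsHyp p ∧ kap p = (m, (e : Fin (r + 1)))}).ncard := by
  classical
  refine (card_A h e he k hk hk2).trans (Nat.mul_le_mul_left _ ?_)
  apply Set.ncard_le_ncard_of_injOn (fun A => (m, A))
  · rintro A ⟨h1, h2⟩
    exact ⟨h1, kap_eq h1 _ h2⟩
  · intro A _ A' _ hAA
    exact (Prod.mk.inj hAA).2

theorem cmp (r n k : ℕ) (hn : 6 * n ≤ r + 5) (hk : 24 * k ≤ r) (hk2 : 2 * r ^ 4 * 3 ^ k ≤ 4 ^ k) :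
    2 ^ n * ({p : Str r | ∃ a, QF p a}).ncard ≤ 2 * ({p : Str r | IsHyp p}).ncard := by
  classical
  have h1 : ({p : Str r | IsHyp p}).ncard =
      ∑ i : MulT r × Fin (r + 1), ({p : Str r | IsHyp p ∧ kap p = i}).ncard := by
    have e1 : ({p : Str r | IsHyp p}).ncard = (univ.filter fun p : Str r => IsHyp p).card := by
      rw [← Set.ncard_coe_finset]; simp
    rw [e1, Finset.card_eq_sum_card_fiberwise (f := kap) (t := univ) (fun _ _ => by simp)]
    refine Finset.sum_congr rfl fun i _ => ?_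
    rw [← Set.ncard_coe_finset]
    congr 1
    ext p
    simp
  have h2 : ({p : Str r | ∃ a, QF p a}).ncard ≤
      ∑ i : MulT r × Fin (r + 1), ({A : AddT r | QF (i.1, A) i.2}).ncard := by
    have e1 : ({p : Str r | ∃ a, QF p a}) ⊆ ((univ : Finset (MulT r × Fin (r + 1))).biUnion
        fun i => (univ.filter fun A : AddT r => QF (i.1, A) i.2).image fun A => (i.1, A) :
          Finset (Str r)) := by
      rintro ⟨m, A⟩ ⟨a, ha⟩
      simp only [coe_biUnion, coe_univ, Set.mem_univ, Set.iUnion_true, coe_image, Set.mem_iUnion,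
        Set.mem_image, mem_coe, mem_filter, mem_univ, true_and]
      exact ⟨(m, a), A, ha, rfl⟩
    refine (Set.ncard_le_ncard e1 (Set.toFinite _)).trans ?_
    rw [Set.ncard_coe_finset]
    refine Finset.card_biUnion_le.trans (Finset.sum_le_sum fun i _ => ?_)
    refine Finset.card_image_le.trans ?_
    rw [← Set.ncard_coe_finset]
    simp
  rw [h1]
  refine (Nat.mul_le_mul_left _ h2).trans ?_
  rw [Finset.mul_sum, Finset.mul_sum]
  refine Finset.sum_le_sum fun i _ => ?_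
  obtain ⟨m, e⟩ := i
  by_cases hex : ∃ A : AddT r, QF (m, A) e
  · obtain ⟨A, K, _, G, f, q, hq, _⟩ := hex
    have hqe : ((q.neg : Nz r) : Fin (r + 1)) = e := hq
    have hm : IsGZ m := q.gz
    have hee := q.neg_neg
    rw [← hqe]
    exact (card_B hm q.neg hee n hn).trans (hyp_fib m hm q.neg hee k hk hk2)
  · have : {A : AddT r | QF (m, A) e} = ∅ := by
      ext A
      simp only [Set.mem_ofPred_eq, Set.mem_empty_iff_false, iff_false]
      exact fun h => hex ⟨A, h⟩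
    rw [this]
    simp

/-- many hyperfields as soon as there is a quotient hyperfield -/
theorem low (r k : ℕ) (hk : 24 * k ≤ r) (hk2 : 2 * r ^ 4 * 3 ^ k ≤ 4 ^ k)
    (hq : ∃ p : Str r, IsQuot p) :
    2 ^ ((r ^ 2) / 6) ≤ 2 * ({p : Str r | IsHyp p}).ncard := by
  classical
  obtain ⟨p, hp⟩ := hq
  obtain ⟨K, _, G, f, q⟩ := (isQuot_iff p).1 hp
  have h1 := hyp_fib p.1 q.gz q.neg q.neg_neg k hk hk2
  let _ := grp q.gz
  have h2 := card_Orb (M := Nz r)
  rw [card_Nz] at h2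
  have h3 : r ^ 2 / 6 ≤ Fintype.card (Orb (Nz r)) := by omega
  refine (Nat.pow_le_pow_right (by norm_num) h3).trans (h1.trans (Nat.mul_le_mul_left _ ?_))
  apply Set.ncard_le_ncard _ (Set.toFinite _)
  exact fun p hp => hp.1

end Pool.Agent.H83HF
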