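import Mathlib
import Pool.Agent.H83HF.Cmp

/-!
Quotients of small finite fields.
-/

set_option autoImplicit false

open Finset

namespace Pool.Agent.H83HF

section

variable {r : ℕ} {p : Str r} {K : Type} [Field K] {G : Subgroup Kˣ} {f : K → Fin (r + 1)}

theorem QD.add' (q : QD p K G f) (x y : K) (z : Fin (r + 1)) :
    z ∈ p.2 (f x) (f y) ↔ ∃ x' y', f x' = f x ∧ f y' = f y ∧ z = f (x' + y') := by
  rw [q.add]
  constructor
  · rintro ⟨g, hg, h, hh, rfl⟩
    exact ⟨_, _, ((q.cls _ _).2 ⟨g, hg, rfl⟩).symm, ((q.cls _ _).2 ⟨h, hh, rfl⟩).symm, rfl⟩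
  · rintro ⟨x', y', hx, hy, rfl⟩
    rw [eq_comm, q.cls] at hx hy
    obtain ⟨g, hg, rfl⟩ := hx
    obtain ⟨h, hh, rfl⟩ := hy
    exact ⟨g, hg, h, hh, rfl⟩

theorem QD.pow_iff [Finite K] (q : QD p K G f) (N : ℕ) (hN : Nat.card G = N) (x y : K) :
    f x = f y ↔ x ^ N = y ^ N := by
  classical
  let _ : Fintype K := Fintype.ofFinite K
  have hN0 : 0 < N := by rw [← hN]; exact Nat.card_pos
  have hpow : ∀ g ∈ G, g ^ N = 1 := by
    intro g hg
    have h1 : (⟨g, hg⟩ : G) ^ N = 1 := by
      rw [← hN]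
      exact pow_card_eq_one'
    exact congrArg Subtype.val h1
  have hG : (univ.filter fun g : Kˣ => g ∈ G) = univ.filter fun g : Kˣ => g ^ N = 1 := by
    apply Finset.eq_of_subset_of_card_le
    · intro g
      simp only [mem_filter, mem_univ, true_and]
      exact hpow g
    · refine (IsCyclic.card_pow_eq_one_le hN0).trans ?_
      rw [← hN, Nat.card_eq_fintype_card, Fintype.card_subtype]
  have hmem : ∀ g : Kˣ, g ^ N = 1 → g ∈ G := by
    intro g hg
    have : g ∈ (univ.filter fun g : Kˣ => g ∈ G) := by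
      rw [hG]
      simp [hg]
    simpa using this
  rw [q.cls]
  constructor
  · rintro ⟨g, hg, rfl⟩
    have h1 := congrArg Units.val (hpow g hg)
    rw [Units.val_pow_eq_pow_val, Units.val_one] at h1
    rw [mul_pow, h1, mul_one]
  · intro h
    by_cases hx : x = 0
    · subst hx
      rw [zero_pow hN0.ne', eq_comm, pow_eq_zero_iff hN0.ne'] at h
      exact ⟨1, G.one_mem, by simp [h]⟩
    · have hy : y ≠ 0 := by
        rintro rfl
        rw [zero_pow hN0.ne', pow_eq_zero_iff hN0.ne'] at h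
        exact hx h
      refine ⟨Units.mk0 (y / x) (div_ne_zero hy hx), ?_, ?_⟩
      · apply hmem
        apply Units.ext
        rw [Units.val_pow_eq_pow_val, Units.val_one, Units.val_mk0, div_pow, h, div_self]
        exact pow_ne_zero _ hy
      · rw [Units.val_mk0, mul_div_cancel₀ _ hx]

theorem QD.r_pos (q : QD p K G f) : 1 ≤ r := by
  by_contra h
  have h1 : f 1 = 0 := by
    have h2 := (f 1).isLt
    apply Fin.ext
    rw [Fin.val_zero]
    omega
  exact one_ne_zero ((q.f_eq_zero 1).1 h1)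

theorem QD.card [Finite K] (q : QD p K G f) : Nat.card K = r * Nat.card G + 1 := by
  classical
  let _ : Fintype K := Fintype.ofFinite K
  rw [Nat.card_eq_fintype_card, Nat.card_eq_fintype_card]
  exact card_G G f q.surj q.zero q.cls

theorem QD.iso {p' : Str r} {K' : Type} [Field K'] {G' : Subgroup K'ˣ} {f' : K' → Fin (r + 1)}
    [Finite K] [Finite K'] (q : QD p K G f) (q' : QD p' K' G' f')
    (h : Nat.card K = Nat.card K') : Iso p p' := by
  classical
  let _ : Fintype K := Fintype.ofFinite K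
  let _ : Fintype K' := Fintype.ofFinite K'
  let φ : K ≃+* K' := FiniteField.ringEquivOfCardEq
    (by rw [← Nat.card_eq_fintype_card, ← Nat.card_eq_fintype_card]; exact h)
  have hc := q.card
  have hc' := q'.card
  have hr := q.r_pos
  have hG : Nat.card G = Nat.card G' := by
    rw [hc, hc'] at h
    exact Nat.eq_of_mul_eq_mul_left hr (by omega)
  have hff : ∀ x y : K, f x = f y ↔ f' (φ x) = f' (φ y) := by
    intro x y
    rw [q.pow_iff _ rfl, q'.pow_iff _ hG.symm, ← map_pow, ← map_pow, φ.injective.eq_iff]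
  choose s hs using q.surj
  have hfi : Function.Injective fun a => f' (φ (s a)) := by
    intro a b hab
    have h1 := (hff _ _).2 hab
    rwa [hs, hs] at h1
  let e : Fin (r + 1) ≃ Fin (r + 1) := Equiv.ofBijective _ (Finite.injective_iff_bijective.1 hfi)
  have he : ∀ x, e (f x) = f' (φ x) := by
    intro x
    change f' (φ (s (f x))) = f' (φ x)
    rw [← hff, hs]
  refine ⟨e, fun a b => ?_⟩
  obtain ⟨x, rfl⟩ := q.surj a
  obtain ⟨y, rfl⟩ := q.surj b
  rw [he, he]
  constructor
  · rw [← q.mul, ← q'.mul, he, map_mul]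
  · ext z
    rw [Set.mem_image, q'.add']
    constructor
    · rintro ⟨w, hw, rfl⟩
      rw [q.add'] at hw
      obtain ⟨x', y', hx, hy, rfl⟩ := hw
      exact ⟨φ x', φ y', (hff _ _).1 hx, (hff _ _).1 hy, by rw [he, map_add]⟩
    · rintro ⟨x', y', hx, hy, rfl⟩
      obtain ⟨x', rfl⟩ := φ.surjective x'
      obtain ⟨y', rfl⟩ := φ.surjective y'
      refine ⟨f (x' + y'), ?_, by rw [he, map_add]⟩
      rw [q.add']
      exact ⟨x', y', (hff _ _).2 hx, (hff _ _).2 hy, rfl⟩

end

theorem qc_le (r : ℕ) : (QC r).ncard ≤ (QCF r).ncard + (16 * r ^ 4 + 1) := by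
  classical
  set S : Set (Set (Str r)) := QC r \ QCF r with hS
  have h1 : (QC r).ncard ≤ (QCF r).ncard + S.ncard := by
    have : QC r ⊆ QCF r ∪ S := by
      intro C hC
      by_cases h : C ∈ QCF r
      · exact Or.inl h
      · exact Or.inr ⟨hC, h⟩
    exact (Set.ncard_le_ncard this (Set.toFinite _)).trans (Set.ncard_union_le _ _)
  refine h1.trans (Nat.add_le_add_left ?_ _)
  have hex : ∀ C ∈ S, ∃ N : ℕ, N < 16 * r ^ 4 + 1 ∧ ∃ (p : Str r) (K : Type) (_ : Field K)
      (_ : Finite K) (G : Subgroup Kˣ) (f : K → Fin (r + 1)), QD p K G f ∧ Nat.card K = N ∧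
      C = {q | IsQuot q ∧ Iso p q} := by
    rintro C ⟨⟨p, hp, hC⟩, hC2⟩
    obtain ⟨K, _, G, f, q⟩ := (isQuot_iff p).1 hp
    by_cases hK : Infinite K ∨ 16 * r ^ 4 < Nat.card K
    · exfalso
      apply hC2
      refine ⟨⟨p, hp, hC⟩, p, ?_, f (-1), K, inferInstance, G, f, q, rfl, ?_⟩
      · rw [hC]
        exact ⟨hp, Iso.refl p⟩
      · exact large_case q.r_pos G f q.surj q.zero q.cls hK
    · push Not at hK
      exact ⟨Nat.card K, by omega, p, K, inferInstance, hK.1, G, f, q, rfl, hC⟩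
  let F : Set (Str r) → ℕ := fun C => if h : C ∈ S then (hex C h).choose else 0
  have hF : ∀ C (h : C ∈ S), F C = (hex C h).choose := fun C h => dif_pos h
  have h2 : S.ncard ≤ (Set.Iio (16 * r ^ 4 + 1)).ncard := by
    apply Set.ncard_le_ncard_of_injOn F
    · intro C hC
      rw [hF C hC]
      exact (hex C hC).choose_spec.1
    · intro C hC C' hC' heq
      rw [hF C hC, hF C' hC'] at heq
      obtain ⟨_, p, K, _, _, G, f, q, hK, hp⟩ := (hex C hC).choose_spec
      obtain ⟨_, p', K', _, _, G', f', q', hK', hp'⟩ := (hex C' hC').choose_spec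
      have h3 : Iso p p' := q.iso q' (by rw [hK, hK', heq])
      rw [hp, hp']
      ext s
      exact ⟨fun h => ⟨h.1, h3.symm.trans h.2⟩, fun h => ⟨h.1, h3.trans h.2⟩⟩
  refine h2.trans ?_
  rw [← Finset.coe_Iio, Set.ncard_coe_finset]
  simp

end Pool.Agent.H83HF
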