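import Mathlib
import Pool.Agent.H83HF.Small

/-!
The final bound.
-/

set_option autoImplicit false

open Finset

namespace Pool.Agent.H83HF

theorem pow_bound (m : ℕ) (hm : 20 ≤ m) : 1000 * (m + 1) ^ 2 ≤ 2 ^ m := by
  induction m, hm using Nat.le_induction with
  | base => norm_num
  | succ m hm ih =>
    calc 1000 * (m + 1 + 1) ^ 2 ≤ 1000 * (m + 1) ^ 2 * 2 := by nlinarith
      _ ≤ 2 ^ m * 2 := Nat.mul_le_mul_right _ ih
      _ = 2 ^ (m + 1) := (pow_succ 2 m).symm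

theorem log_bound (r : ℕ) (hr : 2 ^ 20 ≤ r) : 1000 * (Nat.log 2 r + 1) ^ 2 ≤ r := by
  have h1 : 20 ≤ Nat.log 2 r := Nat.le_log_of_pow_le (by norm_num) hr
  have h2 : 2 ^ Nat.log 2 r ≤ r := Nat.pow_log_le_self 2 (by positivity)
  exact (pow_bound _ h1).trans h2

theorem bound (r : ℕ) (hr : 2 ^ 20 ≤ r) : (QC r).ncard * r ≤ 2 * (HC r).ncard := by
  classical
  by_cases hq : ∃ p : Str r, IsQuot p
  swap
  · have : QC r = ∅ := by
      ext C
      simp only [Set.mem_empty_iff_false, iff_false]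
      rintro ⟨p, hp, _⟩
      exact hq ⟨p, hp⟩
    rw [this]
    simp
  obtain ⟨L, hL⟩ : ∃ L, L = Nat.log 2 r + 1 := ⟨_, rfl⟩
  have hL1 : 1 ≤ L := by omega
  have hLr : 1000 * L ^ 2 ≤ r := by rw [hL]; exact log_bound r hr
  have hrL : r < 2 ^ L := by rw [hL]; exact Nat.lt_pow_succ_log_self (by norm_num) r
  have hrL' : r + 1 ≤ 2 ^ L := hrL
  -- the parameter `k`
  have hk2 : 2 * r ^ 4 * 3 ^ (r / 24) ≤ 4 ^ (r / 24) := by
    have h1 : ∀ j : ℕ, 2 ^ j * 3 ^ (3 * j) ≤ 4 ^ (3 * j) := by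
      intro j
      rw [pow_mul, pow_mul, ← mul_pow]
      exact Nat.pow_le_pow_left (by norm_num) j
    obtain ⟨j, hj⟩ : ∃ j, j = r / 24 / 3 := ⟨_, rfl⟩
    obtain ⟨s, hs⟩ : ∃ s, r / 24 = 3 * j + s := ⟨r / 24 - 3 * j, by omega⟩
    have h2 : 1 + 4 * L ≤ j := by
      have : 1000 * L ≤ r := by nlinarith
      omega
    have h3 : 2 * r ^ 4 ≤ 2 ^ j := by
      calc 2 * r ^ 4 ≤ 2 * (2 ^ L) ^ 4 := by gcongr
        _ = 2 ^ (1 + 4 * L) := by ring
        _ ≤ 2 ^ j := Nat.pow_le_pow_right (by norm_num) h2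
    rw [hs, pow_add, pow_add, ← mul_assoc]
    refine Nat.mul_le_mul ((Nat.mul_le_mul_right _ h3).trans (h1 j))
      (Nat.pow_le_pow_left (by norm_num) s)
  have hk : 24 * (r / 24) ≤ r := Nat.mul_div_le r 24
  have hn : 6 * ((r + 5) / 6) ≤ r + 5 := Nat.mul_div_le _ _
  have i1 := qcf_le r L hrL
  have i2 := cmp r ((r + 5) / 6) (r / 24) hn hk hk2
  have i3 := hyp_le r
  have i4 := low r (r / 24) hk hk2 hq
  have i5 := qc_le r
  set A := ({p : Str r | ∃ a, QF p a}).ncard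
  set B := ({p : Str r | IsHyp p}).ncard
  set H := (HC r).ncard
  set Q := (QCF r).ncard
  obtain ⟨n, hn'⟩ : ∃ n, n = (r + 5) / 6 := ⟨_, rfl⟩
  rw [← hn'] at i2
  have hLr1 : 1000 * L ≤ r := by nlinarith
  have hfac : 0 < r.factorial := Nat.factorial_pos r
  -- first part
  have j1 : Q * r ≤ H := by
    have h1 : 2 ^ n * Q * r.factorial ≤ 2 * (r + 1) ^ (L + 1) * H * r.factorial := by
      calc 2 ^ n * Q * r.factorial = 2 ^ n * (Q * r.factorial) := by ring
        _ ≤ 2 ^ n * (A * (r + 1) ^ L) := Nat.mul_le_mul_left _ i1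
        _ = (2 ^ n * A) * (r + 1) ^ L := by ring
        _ ≤ (2 * B) * (r + 1) ^ L := Nat.mul_le_mul_right _ i2
        _ ≤ (2 * (H * (r + 1).factorial)) * (r + 1) ^ L := by gcongr
        _ = 2 * (r + 1) ^ (L + 1) * H * r.factorial := by
          rw [Nat.factorial_succ]
          ring
    have h2 : 2 ^ n * Q ≤ 2 * (r + 1) ^ (L + 1) * H := Nat.le_of_mul_le_mul_right h1 hfac
    have h3 : 2 * (r + 1) ^ (L + 1) * r ≤ 2 ^ n := by
      calc 2 * (r + 1) ^ (L + 1) * r ≤ 2 * (2 ^ L) ^ (L + 1) * 2 ^ L := by gcongr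
        _ = 2 ^ (1 + L ^ 2 + 2 * L) := by ring
        _ ≤ 2 ^ n := Nat.pow_le_pow_right (by norm_num) (by
          have : L ≤ L ^ 2 := by nlinarith
          omega)
    have h4 : 2 ^ n * (Q * r) ≤ 2 ^ n * H := by
      calc 2 ^ n * (Q * r) = (2 ^ n * Q) * r := by ring
        _ ≤ (2 * (r + 1) ^ (L + 1) * H) * r := Nat.mul_le_mul_right _ h2
        _ = (2 * (r + 1) ^ (L + 1) * r) * H := by ring
        _ ≤ 2 ^ n * H := Nat.mul_le_mul_right _ h3
    exact Nat.le_of_mul_le_mul_left h4 (by positivity)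
  have j2 : (16 * r ^ 4 + 1) * r ≤ H := by
    have h1 : ((16 * r ^ 4 + 1) * r) * (2 * (r + 1).factorial) ≤ 2 ^ (r ^ 2 / 6) := by
      have h2 : 16 * r ^ 4 + 1 ≤ 2 ^ (5 + 4 * L) := by
        calc 16 * r ^ 4 + 1 ≤ 32 * (r + 1) ^ 4 := by
              have : r ^ 4 ≤ (r + 1) ^ 4 := Nat.pow_le_pow_left (by omega) 4
              have h' : 1 ≤ (r + 1) ^ 4 := Nat.one_le_pow _ _ (by omega)
              omega
          _ ≤ 32 * (2 ^ L) ^ 4 := by gcongr
          _ = 2 ^ (5 + 4 * L) := by ring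
      have h3 : (r + 1).factorial ≤ 2 ^ (L * (r + 1)) := by
        rw [pow_mul]
        exact (Nat.factorial_le_pow _).trans (Nat.pow_le_pow_left hrL' _)
      calc ((16 * r ^ 4 + 1) * r) * (2 * (r + 1).factorial)
          ≤ (2 ^ (5 + 4 * L) * 2 ^ L) * (2 * 2 ^ (L * (r + 1))) := by gcongr
        _ = 2 ^ (6 + 6 * L + L * r) := by ring
        _ ≤ 2 ^ (r ^ 2 / 6) := Nat.pow_le_pow_right (by norm_num) (by
          rw [Nat.le_div_iff_mul_le (by norm_num)]
          nlinarith)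
    have h2 : ((16 * r ^ 4 + 1) * r) * (2 * (r + 1).factorial) ≤ H * (2 * (r + 1).factorial) := by
      refine h1.trans (i4.trans ?_)
      calc 2 * B ≤ 2 * (H * (r + 1).factorial) := Nat.mul_le_mul_left _ i3
        _ = H * (2 * (r + 1).factorial) := by ring
    exact Nat.le_of_mul_le_mul_right h2 (by positivity)
  calc (QC r).ncard * r ≤ (Q + (16 * r ^ 4 + 1)) * r := Nat.mul_le_mul_right _ i5
    _ = Q * r + (16 * r ^ 4 + 1) * r := by ring
    _ ≤ H + H := Nat.add_le_add j1 j2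
    _ = 2 * H := by ring

theorem limit : Filter.Tendsto (fun r : ℕ => (((QC r).ncard : ℕ) : ℝ) / (((HC r).ncard : ℕ) : ℝ))
    Filter.atTop (nhds 0) := by
  have h0 : Filter.Tendsto (fun r : ℕ => (2 : ℝ) / (r : ℝ)) Filter.atTop (nhds 0) :=
    tendsto_const_div_atTop_nhds_zero_nat 2
  refine squeeze_zero' (Filter.Eventually.of_forall fun r => by positivity) ?_ h0
  filter_upwards [Filter.eventually_ge_atTop (2 ^ 20)] with r hr
  have h1 := bound r hr
  have hr0 : (0 : ℝ) < r := by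
    have : 0 < r := lt_of_lt_of_le (by positivity) hr
    exact_mod_cast this
  have h2 : ((QC r).ncard : ℝ) * r ≤ 2 * ((HC r).ncard : ℝ) := by exact_mod_cast h1
  rcases Nat.eq_zero_or_pos (HC r).ncard with h | h
  · rw [h]
    simp only [Nat.cast_zero, div_zero]
    positivity
  · have h3 : (0 : ℝ) < ((HC r).ncard : ℝ) := by exact_mod_cast h
    rw [div_le_div_iff₀ h3 hr0]
    exact h2

end Pool.Agent.H83HF
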